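import Pool.Agent.Lib.MP_29a61e_co.RP.Spec

/-!
# MP_29a61e_co, random permutations: statements of the modules, part 2

Same conventions as in Spec.lean; these modules import `...RP.Spec2`.
-/

namespace Pool.Agent.Lib.MP29a61e.RP

open Pool.Agent.Lib.MP29a61e

/-! ## CLN -/

/-- CLN (60 lines, from STP, CYC): after the cleaning of STP the number of scars is at most
`N / l` plus the number of bad letters. Proof: the scars of `w'` are in different cycles of `T`.
Those on cycles of length `≤ l` are bad letters (CYC); the others have disjoint orbits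
`{x, T x, .., T^(l-1) x}` of size `l`. -/
def SpecCLN : Prop :=
  ∀ (α S : Type) [Fintype α] (β γ : Equiv.Perm α) (o : S → ℕ → α) (len : S → ℕ) (h : S → ℕ)
    (T : α → α) (H l : ℕ) (f : α) (w : List α),
    IsStr β γ o len → (∀ s, 2 * h s < len s) → (∀ s, h s ≤ H) → IsLF β γ o h T →
    Function.Bijective T → IsWd f w → 0 < l →
    ∃ (w' : List α) (k : ℕ), Reach k w w' ∧ k + (scars T w').card ≤ (scars T w).card ∧
      l * (scars T w').card ≤ Fintype.card α + l * nBad β γ (l * (4 * H + 1))

/-! ## BST -/

/-- BST (250 lines, from BAT, EXT, NEA, TLF): one batch of `2 J` slides.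
Proof. Pending strands: `2 h s + 2 < len s`. For a pending strand `s` let `a c := jo o h s c`,
`b c := jq β o h s c`, `c = 0, 1, 2`; by TLF (third part) `T (a c) = b c`. Remove the strands such
that some `a c` is a scar (at most one strand per scar, as `a` determines `s` by `IsStr.inj`). For
the others `Link w (a c) (b c)`, so `w[p c]? = some (a c)`, `w[p c + 1]? = some (b c)` for a
position `p s c`. Remove the strands with two junctions `p s c < p s c' < p s c + D`: if no letter
of `w` at the positions `p s c + 1, .., p s c' - 1` is a scar, then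
`T^[p s c' - p s c - 1] (b c) = a c'` and `b c` is bad by NEA (at most one strand per bad letter);
otherwise there is a scar at a position `i` with `i - D < p s c < i` (at most `D` strands per scar).
The remaining set `F` satisfies the hypotheses of EXT with `K = 2 J + 3`, `n = N`; EXT, then BAT.
`P` := the strands of the columns `k ≠ 0, J + 1, 2 J + 2`. `T'` from TLF. New word: the links
`a k c - b k (c+1)` are the links of `T'` at `a k c`, `k` in `P`; for the other letters `T' x = T x`
and a link `x - T x` of `w` survives if `x` is none of the letters `a k c`; so the only new scars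
are among the 9 letters `a k c` of the three sacrificed columns. -/
def SpecBST : Prop :=
  ∀ (J D H : ℕ), 0 < D → ∀ (α S : Type) [Fintype α] [Fintype S] (β γ : Equiv.Perm α)
    (o : S → ℕ → α) (len : S → ℕ) (h : S → ℕ) (T : α → α) (f : α) (w : List α),
    IsStr β γ o len → (∀ s, 2 * h s < len s) → (∀ s, h s ≤ H) → IsLF β γ o h T → IsWd f w →
    nBad β γ (D * (4 * H + 1) + 4 * H + 5) + (D + 4) * (scars T w).card +
      48 * ((2 * J + 3) ^ 4 + 1) * (Fintype.card α / D + 1) <
        (Finset.univ.filter (fun s => 2 * h s + 2 < len s)).card →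
    ∃ (w' : List α) (P : Finset S) (h' : S → ℕ) (T' : α → α), P.card = 2 * J ∧
      (∀ s ∈ P, 2 * h s + 2 < len s ∧ h' s = h s + 1) ∧ (∀ s ∉ P, h' s = h s) ∧
      IsLF β γ o h' T' ∧ Function.Bijective T' ∧ Reach (2 * J + 9) w w' ∧
      (scars T' w').card ≤ (scars T w).card + 9

/-! ## LOO -/

/-- LOO (150 lines, from CLN, BST, TLF): repeat batch + cleaning as long as BST applies (the sum of
the `h s` grows by `2 J` each time; it is at most `N`, as `∑ len s ≤ N`). Invariants:
`Reach k w w'`, `J * (k + #scars) ≤ J + (J + 9) * ∑ h s` (a batch costs `2 J + 9` moves and makes at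
most `9` new scars, `∑ h` grows by `2 J`; a cleaning does not increase `k + #scars`), and
`l * #scars ≤ N + l * nBad`. Here `H := L` (as `2 h s < len s ≤ 2 L`). -/
def SpecLOO : Prop :=
  ∀ (J D L l : ℕ), 0 < J → 0 < D → 0 < L → 0 < l →
  ∀ (α S : Type) [Fintype α] [Fintype S] (β γ : Equiv.Perm α)
    (o : S → ℕ → α) (len : S → ℕ) (f : α) (w : List α),
    IsStr β γ o len → (∀ s, len s ≤ 2 * L) → IsWd f w → (scars β w).card ≤ 1 →
    ∃ (w' : List α) (k : ℕ) (h : S → ℕ) (T : α → α), Reach k w w' ∧ (∀ s, 2 * h s < len s) ∧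
      IsLF β γ o h T ∧ Function.Bijective T ∧
      J * (k + (scars T w').card) ≤ J + (J + 9) * ∑ s, h s ∧
      (Finset.univ.filter (fun s => 2 * h s + 2 < len s)).card ≤
        nBad β γ (D * (4 * L + 1) + 4 * L + 5) +
        (D + 4) * (Fintype.card α / l + nBad β γ (l * (4 * L + 1))) +
        48 * ((2 * J + 3) ^ 4 + 1) * (Fintype.card α / D + 1)

/-! ## DET -/

/-- DET (150 lines, from STD, LOO, STP): the deterministic upper bound. `N = n + 1` letters,
`γ = finRotate`. Proof. Strands from STD; LOO; `B := nBad β γ R` bounds all the `nBad` that occur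
(`Bad` is monotone in the length). `Θ :=` the bound of LOO for the unfinished strands. Finished
strands have `2 h s ≥ len s - 2`, `∑ len s = N`, so
`2 ∑ h s ≥ N - 2 #S - 2 L Θ`. The letters `o s i`, `i < 2 h s`, that are not scars of `T` are
followed by `γ x`: `#scars γ w' ≤ N - 2 ∑ h s + #scars T w'`. Sorting: STP for `γ` ends with one
scar (`γ` has one cycle), so with `[0, 1, .., n]`. Total
`k + (N - 2 ∑ h + #scars T) ≤ 1 + N + (9 / J) ∑ h - ∑ h`. -/
def SpecDET : Prop :=
  ∀ (J D L l : ℕ), 0 < J → 0 < D → 0 < L → 0 < l →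
  ∀ (n : ℕ) (w : List (Fin (n + 1))) (β : Equiv.Perm (Fin (n + 1))),
    IsWd 0 w → (scars β w).card ≤ 1 →
    ∃ k : ℕ, Reach k w (List.finRange (n + 1)) ∧
      (k : ℝ) ≤ (n + 1 : ℝ) / 2 + 9 * (n + 1 : ℝ) / (2 * J) + (n + 1 : ℝ) / L + 1 +
        L * (48 * ((2 * J + 3) ^ 4 + 1) * ((n + 1 : ℝ) / D + 1) + (D + 4) * ((n + 1 : ℝ) / l)) +
        (1 + L * (D + 5)) *
          (nBad β (finRotate (n + 1)) ((D + l) * (4 * L + 1) + 4 * L + 5) : ℝ)

/-! ## PRB -/

/-- PRB (300 lines, no hypotheses): for a random permutation the expected number of bad letters is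
bounded. Proof. `N = n + 1`, `ρ = finRotate N`, `β = π ρ π⁻¹`, `γ = ρ`; position of a letter `y` :=
`π⁻¹ y`; `γ` steps change the value by `±1`, `β` steps the position by `±1`. (For `N ≤ 2 r + 2`
use the trivial bound `nBad ≤ N`.)
(1) A bad letter `x` has a closed reduced walk `x = y_0, y_1, .., y_m = x`, `1 ≤ m ≤ r`. Take
`i < j` with `y_i = y_j` and `j - i` minimal: `y_i, .., y_(j-1)` are different. The labels of the
steps between are not all `γ^ε` (a reduced word in one generator is a power, and `N > r`) and not all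
`β^ε`. So the cyclic word has a `β` step followed by a `γ` step; rotate it (the walk starts at
another letter `y_t` of the cycle; `x` is joined to `y_t` by a walk of length `≤ r`): a walk
`z_0, .., z_(L-1), z_L = z_0`, `z_0, .., z_(L-1)` different, `2 ≤ L ≤ r`, labels `g_1, .., g_L`
with `g_(L-1) = β^±`, `g_L = γ^±`.
(2) For fixed labels, the number of pairs (`π`, `z_0`) with this property is at most
`N^L (N - L)!`: the values `v_i = z_i` and positions `q_i = π⁻¹ z_i` (`i < L`) are determined by
`v_0, q_0` and one more number for every step `i + 1 ≤ L - 1` except the step `L - 1` (a `γ` step: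
the new position; a `β` step: the new value; for the `β` step `L - 1` the new value must be
`v_0 ∓ 1` because of the last step): at most `N^2 N^(L-2)` possibilities; and at most `(N - L)!`
permutations have `π (q_i) = v_i` for `L` different `q_i`. `N^L (N-L)! ≤ 2^L N!` for `N ≥ 2 L`.
(3) So `∑ nBad ≤ 4^(r+1) * (r + 1) * ∑_{L ≤ r} 4^L 2^L N!` or any such bound. -/
def SpecPRB : Prop :=
  ∀ r : ℕ, ∃ C : ℕ, ∀ n : ℕ,
    ∑ π : Equiv.Perm (Fin (n + 1)), nBad (π * finRotate (n + 1) * π⁻¹) (finRotate (n + 1)) r ≤
      C * (n + 1).factorial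

/-- the permutation of `{0, .., n}` that fixes `0` and acts as `π` on `1, .., n`. -/
def ext {n : ℕ} (π : Equiv.Perm (Fin n)) : Equiv.Perm (Fin (n + 1)) :=
  Equiv.Perm.decomposeFin.symm (0, π)

/-- TRN (100 lines, no hypotheses): from permutations with `0` fixed to all permutations, and the
word of `π`. (1) `(π, j) ↦ ext π * finRotate^j` is injective (look at the image of `0`, then of
the position of `0`) so bijective from `Perm (Fin n) × Fin (n+1)`, and `finRotate^j` commutes with
`finRotate`. (2), (3): `List.ofFn (ext π) = 0 :: (List.ofFn π).map Fin.succ`, and the letter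
`ext π i` is followed by `ext π (i + 1)` except for `i = n`. -/
def SpecTRN : Prop :=
  (∀ (n : ℕ) (F : Equiv.Perm (Fin (n + 1)) → ℕ),
    ∑ π : Equiv.Perm (Fin (n + 1)), F (π * finRotate (n + 1) * π⁻¹) =
      (n + 1) * ∑ π : Equiv.Perm (Fin n), F (ext π * finRotate (n + 1) * (ext π)⁻¹)) ∧
  (∀ (n : ℕ) (π : Equiv.Perm (Fin n)),
    (0 : Fin (n + 1)) :: (List.ofFn π).map Fin.succ = List.ofFn (ext π)) ∧
  (∀ (n : ℕ) (π : Equiv.Perm (Fin n)),
    IsWd 0 (List.ofFn (ext π)) ∧
      (scars (ext π * finRotate (n + 1) * (ext π)⁻¹) (List.ofFn (ext π))).card ≤ 1) ∧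
  (∀ (n k : ℕ) (π : Equiv.Perm (Fin n)), Reach k (List.ofFn (ext π)) (List.finRange (n + 1)) →
      ∃ j ≤ k, Steps j (List.ofFn π) (List.finRange n))

/-! ## LOW -/

/-- LOW (300 lines, no hypotheses): the lower bound. Proof. Ports: `(x, ε)`, `x ∈ Fin (n+1)`,
`ε : Bool` (`true` = upper, `false` = lower). `G` := the involution `(x, true) ↔ (x + 1, false)`
(cyclically). For the word `v` (with the frame `0` in front, read cyclically) and a signing
`s : Fin (n+1) → Bool` the right port of `x` is `(x, s x)`, the left port `(x, !s x)`, and `B` is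
the involution that exchanges the right port of a letter and the left port of the next letter.
`c(B)` := number of classes of ports under `B`, `G` = dimension of the space `V(B)` of the functions
`φ : ports → ℚ` with `φ ∘ B = φ`, `φ ∘ G = φ`.
(1) A move (with the signs of a reversed block changed) replaces three edges of `B` by three others
on the same six ports; the functions of `V(B)` which have the same value on the three old edges
(two linear conditions) are in `V(B')`: `c(B') ≥ c(B) - 2`, and conversely.
(2) For the identity with all signs `true` `B = G`, `c = n + 1`. So, going back along the `k` moves,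
some signing of `π` has `n + 1 ≤ c(B) + 2 k`.
(3) If a port `(x, ε)` has `(B ∘ G)^m (x, ε) = (x, ε)` with `1 ≤ m ≤ l`, then `x` is on a closed walk
with labels alternately `γ^±`, `β^±`, of length `2 m`, so `Bad β γ (2 l) x`. The classes all whose
ports belong to letters that are not bad have more than `l` ports: at most `2 (n+1) / l` of them; the
others are at most `2 nBad`. -/
def SpecLOW : Prop :=
  ∀ (n l k : ℕ) (π : Equiv.Perm (Fin n)), 0 < l → Steps k (List.ofFn π) (List.finRange n) →
    l * (n + 1) ≤ 2 * (n + 1) + 2 * l * k +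
      2 * l * nBad (ext π * finRotate (n + 1) * (ext π)⁻¹) (finRotate (n + 1)) (2 * l)

/-! ## FIN -/

/-- FIN (150 lines, from DET, PRB, TRN, LOW). Given `ε`: choose `J`, `L`, then `D`, then `l`, all
errors `≤ ε n / 10`; Markov: all but `ε n!` of the `π` have `nBad ≤ t` with a constant `t`
depending on `ε` only. -/
def SpecFIN : Prop :=
  ∀ ε : ℝ, 0 < ε → ∃ n0 : ℕ, ∀ n ≥ n0,
    (1 - ε) * (n.factorial : ℝ) ≤
      ((Finset.univ.filter (fun π : Equiv.Perm (Fin n) =>
        |(sortDist π : ℝ) - n / 2| ≤ ε * n)).card : ℝ)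

end Pool.Agent.Lib.MP29a61e.RP
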