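import Pool.Agent.Lib.MP_29a61e_co.RP.Basic
import Pool.Agent.Lib.MP_29a61e_co.RP.Spec2

section
/-!
# MP_29a61e_co, random permutations: the lower bound (module LOW)
-/
namespace Pool.Agent.Lib.MP29a61e.RP

open Pool.Agent.Lib.MP29a61e

namespace LOWM

/-- the other port of the same letter. -/
def br {α : Type} (p : α × Bool) : α × Bool := (p.1, !p.2)

theorem br_br {α : Type} (p : α × Bool) : br (br p) = p := by simp [br]

/-- the reversed signed word. -/
def srv {α : Type} (B : List (α × Bool)) : List (α × Bool) := (B.map br).reverse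

theorem srv_srv {α : Type} (B : List (α × Bool)) : srv (srv B) = B := by
  have : br ∘ br = (id : α × Bool → α × Bool) := funext br_br
  simp [srv, this]

theorem srv_fst {α : Type} (B : List (α × Bool)) :
    (srv B).map Prod.fst = (B.map Prod.fst).reverse := by
  have : Prod.fst ∘ br = (Prod.fst : α × Bool → α) := rfl
  simp [srv, this]

/-- the word with the frame letter at both ends. -/
def fr {α : Type} (o : α) (w : List (α × Bool)) : List (α × Bool) :=
  ((o, true) :: w) ++ [(o, true)]

/-- the functions on the ports which are constant on the links of the word and on the value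
links. -/
def Vs {α : Type} (γ : Equiv.Perm α) (L : List (α × Bool)) : Submodule ℚ (α × Bool → ℚ) where
  carrier := {φ | (∀ x, φ (x, true) = φ (γ x, false)) ∧ ∀ a b, Link L a b → φ a = φ (br b)}
  add_mem' := by
    rintro φ ψ ⟨h1, h2⟩ ⟨h3, h4⟩
    exact ⟨fun x => by simp [h1 x, h3 x], fun a b h => by simp [h2 a b h, h4 a b h]⟩
  zero_mem' := ⟨fun _ => rfl, fun _ _ _ => rfl⟩
  smul_mem' := by
    rintro r φ ⟨h1, h2⟩
    exact ⟨fun x => by simp [h1 x], fun a b h => by simp [h2 a b h]⟩

theorem mem_Vs {α : Type} {γ : Equiv.Perm α} {L : List (α × Bool)} {φ : α × Bool → ℚ} :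
    φ ∈ Vs γ L ↔ (∀ x, φ (x, true) = φ (γ x, false)) ∧ ∀ a b, Link L a b → φ a = φ (br b) :=
  Iff.rfl

theorem link_srv {α : Type} {B : List (α × Bool)} {a b : α × Bool} (h : Link (srv B) a b) :
    Link B (br b) (br a) := by
  obtain ⟨s, t, h⟩ := link_iff.1 h
  refine link_iff.2 ⟨srv t, srv s, ?_⟩
  rw [← srv_srv B, h]
  simp [srv]

/-- the key step: a function with equal values at the three old links stays invariant. -/
theorem key {α : Type} {γ : Equiv.Perm α} {o : α} {A B C U V B' : List (α × Bool)}
    {p1 p2 p3 : α × Bool} {φ : α × Bool → ℚ} (hB : B ≠ []) (hAC : A ++ C = U ++ V)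
    (hB' : B' = B ∨ B' = srv B)
    (h1 : ((o, true) :: A).getLast? = some p1) (h2 : B.getLast? = some p2)
    (h3 : ((o, true) :: U).getLast? = some p3)
    (hφ : φ ∈ Vs γ (fr o (A ++ B ++ C))) (e1 : φ p1 = φ p2) (e2 : φ p2 = φ p3) :
    φ ∈ Vs γ (fr o (U ++ B' ++ V)) := by
  obtain ⟨hγ, hL⟩ := hφ
  have f1 : fr o (A ++ B ++ C) = ((o, true) :: A) ++ (B ++ (C ++ [(o, true)])) := by
    simp [fr]
  have f2 : fr o (U ++ B' ++ V) = ((o, true) :: U) ++ (B' ++ (V ++ [(o, true)])) := by
    simp [fr]
  rw [f1] at hL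
  obtain ⟨hd, hhd⟩ : ∃ hd, B.head? = some hd := by
    cases B with
    | nil => exact absurd rfl hB
    | cons c B => exact ⟨c, rfl⟩
  have hc : ∃ hc, (C ++ [(o, true)]).head? = some hc := by
    cases C with
    | nil => exact ⟨_, rfl⟩
    | cons c C => exact ⟨_, rfl⟩
  obtain ⟨hc, hhc⟩ := hc
  have hv : ∃ hv, (V ++ [(o, true)]).head? = some hv := by
    cases V with
    | nil => exact ⟨_, rfl⟩
    | cons c C => exact ⟨_, rfl⟩
  obtain ⟨hv, hhv⟩ := hv
  have g1 : φ p1 = φ (br hd) := by
    refine hL _ _ (link_append.2 (Or.inr (Or.inr ⟨h1, ?_⟩)))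
    rw [List.head?_append, hhd]
    rfl
  have g2 : φ p2 = φ (br hc) :=
    hL _ _ (link_append.2 (Or.inr (Or.inl (link_append.2 (Or.inr (Or.inr ⟨h2, hhc⟩))))))
  -- the word without the block
  have hM : ∀ a b, Link (((o, true) :: A) ++ (C ++ [(o, true)])) a b → φ a = φ (br b) := by
    intro a b h
    rcases link_append.1 h with h | h | ⟨h, h'⟩
    · exact hL _ _ (link_append.2 (Or.inl h))
    · exact hL _ _ (link_append.2 (Or.inr (Or.inl (link_append.2 (Or.inr (Or.inl h))))))
    · rw [h1] at h
      rw [hhc] at h'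
      rw [← Option.some.inj h, ← Option.some.inj h', e1, g2]
  have hMM : ((o, true) :: A) ++ (C ++ [(o, true)]) = ((o, true) :: U) ++ (V ++ [(o, true)]) := by
    rw [List.cons_append, ← List.append_assoc, hAC]
    simp
  rw [hMM] at hM
  have g3 : φ p3 = φ (br hv) := hM _ _ (link_append.2 (Or.inr (Or.inr ⟨h3, hhv⟩)))
  refine ⟨hγ, ?_⟩
  rw [f2]
  have hBB : ∀ a b, Link B a b → φ a = φ (br b) := fun a b h =>
    hL _ _ (link_append.2 (Or.inr (Or.inl (link_append.2 (Or.inl h)))))
  intro a b h
  rcases link_append.1 h with h | h | ⟨h, h'⟩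
  · exact hM _ _ (link_append.2 (Or.inl h))
  · rcases link_append.1 h with h | h | ⟨h, h'⟩
    · rcases hB' with rfl | rfl
      · exact hBB _ _ h
      · have := hBB _ _ (link_srv h)
        rw [br_br] at this
        exact this.symm
    · exact hM _ _ (link_append.2 (Or.inr (Or.inl h)))
    · rw [hhv] at h'
      rw [← Option.some.inj h']
      rcases hB' with rfl | rfl
      · rw [h2] at h
        rw [← Option.some.inj h, e2, g3]
      · have : (srv B).getLast? = some (br hd) := by
          simp [srv, List.getLast?_reverse, hhd]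
        rw [this] at h
        rw [← Option.some.inj h, ← g1, e1, e2, g3]
  · rw [h3] at h
    rw [← Option.some.inj h]
    rcases hB' with rfl | rfl
    · rw [List.head?_append, hhd] at h'
      have h'' : hd = b := by simpa using h'
      rw [← h'', ← e2, ← e1, g1]
    · have : (srv B).head? = some (br p2) := by
        simp [srv, List.head?_reverse, h2]
      rw [List.head?_append, this] at h'
      have h'' : br p2 = b := by simpa using h'
      rw [← h'', br_br, e2]

/-- one move changes the dimension by at most two. -/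
theorem move_dim {α : Type} [Fintype α] {γ : Equiv.Perm α} {o : α}
    {A B C U V B' : List (α × Bool)} (hB : B ≠ []) (hAC : A ++ C = U ++ V)
    (hB' : B' = B ∨ B' = srv B) :
    Module.finrank ℚ (Vs γ (fr o (A ++ B ++ C))) ≤
      Module.finrank ℚ (Vs γ (fr o (U ++ B' ++ V))) + 2 := by
  obtain ⟨p1, h1⟩ : ∃ p, ((o, true) :: A).getLast? = some p :=
    ⟨_, List.getLast?_eq_some_getLast (by simp)⟩
  obtain ⟨p2, h2⟩ : ∃ p, B.getLast? = some p := ⟨_, List.getLast?_eq_some_getLast hB⟩
  obtain ⟨p3, h3⟩ : ∃ p, ((o, true) :: U).getLast? = some p :=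
    ⟨_, List.getLast?_eq_some_getLast (by simp)⟩
  let f : Vs γ (fr o (A ++ B ++ C)) →ₗ[ℚ] (ℚ × ℚ) :=
    { toFun := fun φ => (φ.1 p1 - φ.1 p2, φ.1 p2 - φ.1 p3)
      map_add' := fun φ ψ => by
        simp only [Submodule.coe_add, Pi.add_apply, Prod.mk_add_mk, Prod.mk.injEq]
        constructor <;> ring
      map_smul' := fun r φ => by
        simp only [Submodule.coe_smul, Pi.smul_apply, smul_eq_mul, RingHom.id_apply,
          Prod.smul_mk, Prod.mk.injEq]
        constructor <;> ring }
  have hr := f.finrank_range_add_finrank_ker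
  have h4 : Module.finrank ℚ (LinearMap.range f) ≤ 2 := by
    refine (Submodule.finrank_le _).trans ?_
    rw [Module.finrank_prod, Module.finrank_self]
  let g : LinearMap.ker f →ₗ[ℚ] Vs γ (fr o (U ++ B' ++ V)) :=
    LinearMap.codRestrict _ ((Submodule.subtype _).comp (Submodule.subtype _)) (by
      rintro ⟨φ, hφ⟩
      have hφ' : (φ.1 p1 - φ.1 p2, φ.1 p2 - φ.1 p3) = (0 : ℚ × ℚ) := hφ
      rw [Prod.mk_eq_zero] at hφ'
      exact key hB hAC hB' h1 h2 h3 φ.2 (sub_eq_zero.1 hφ'.1) (sub_eq_zero.1 hφ'.2))
  have hg : Function.Injective g := by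
    intro x y hxy
    have h0 : (g x).1 = (g y).1 := by rw [hxy]
    have h6 : (x.1.1 : α × Bool → ℚ) = y.1.1 := h0
    exact Subtype.ext (Subtype.ext h6)
  have h5 := LinearMap.finrank_le_finrank_of_injective hg
  omega

/-- lifting of a sequence of moves to signed words. -/
theorem lift {α : Type} [Fintype α] {γ : Equiv.Perm α} {o : α} : ∀ (k : ℕ) (u v : List α),
    Steps k u v → ∀ v' : List (α × Bool), v'.map Prod.fst = v →
    ∃ u' : List (α × Bool), u'.map Prod.fst = u ∧
      Module.finrank ℚ (Vs γ (fr o v')) ≤ Module.finrank ℚ (Vs γ (fr o u')) + 2 * k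
  | 0, u, v, h, v', hv => ⟨v', by rw [hv]; exact h.symm, by omega⟩
  | k + 1, u, v, h, v', hv => by
    obtain ⟨w, hm, hs⟩ := h
    obtain ⟨w', hw', hd⟩ := lift (γ := γ) (o := o) k w v hs v' hv
    obtain ⟨A, B, C, U, V, hB, rfl, hAC, hw⟩ := hm
    have main : ∀ B2 : List α, w = U ++ B2 ++ V → (B2 = B ∨ B2 = B.reverse) →
        ∃ u' : List (α × Bool), u'.map Prod.fst = A ++ B ++ C ∧
        Module.finrank ℚ (Vs γ (fr o v')) ≤
          Module.finrank ℚ (Vs γ (fr o u')) + 2 * (k + 1) := by
      intro B2 hw2 hor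
      rw [hw2] at hw'
      obtain ⟨w1, V1, rfl, h1, hV1⟩ := List.map_eq_append_iff.1 hw'
      obtain ⟨U1, B1, rfl, hU1, hB1⟩ := List.map_eq_append_iff.1 h1
      have h2 : (U1 ++ V1).map Prod.fst = A ++ C := by
        rw [List.map_append, hU1, hV1, hAC]
      obtain ⟨A1, C1, h3, hA1, hC1⟩ := List.map_eq_append_iff.1 h2
      have hB1ne : B1 ≠ [] := by
        rintro rfl
        rcases hor with rfl | rfl
        · exact hB (by simpa using hB1.symm)
        · exact hB (by simpa using hB1.symm)
      rcases hor with hor | hor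
      · refine ⟨A1 ++ B1 ++ C1, by simp [hA1, hC1, hB1, hor], ?_⟩
        have := move_dim (γ := γ) (o := o) (A := U1) (B := B1) (C := V1) (U := A1) (V := C1)
          (B' := B1) hB1ne h3 (Or.inl rfl)
        omega
      · refine ⟨A1 ++ srv B1 ++ C1, by simp [hA1, hC1, srv_fst, hB1, hor], ?_⟩
        have := move_dim (γ := γ) (o := o) (A := U1) (B := B1) (C := V1) (U := A1) (V := C1)
          (B' := srv B1) hB1ne h3 (Or.inr rfl)
        omega
    rcases hw with hw | hw
    · exact main B hw (Or.inl rfl)
    · exact main B.reverse hw (Or.inr rfl)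

/-! ## counting cycles -/

/-- a bijection of a finite set, with many points whose orbits have at least `l` elements. -/
theorem card_cycles {β : Type} [Fintype β] [DecidableEq β] (σ : Equiv.Perm β) (l : ℕ)
    (bad : Finset β) (hb : ∀ p, p ∉ bad → ∀ m, 1 ≤ m → m ≤ l → (σ ^ m) p ≠ p)
    [Fintype (Quotient (Equiv.Perm.SameCycle.setoid σ))] :
    l * Fintype.card (Quotient (Equiv.Perm.SameCycle.setoid σ)) ≤
      Fintype.card β + l * bad.card := by
  classical
  let q : β → Quotient (Equiv.Perm.SameCycle.setoid σ) := Quotient.mk _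
  have h1 : Fintype.card β = ∑ c : Quotient (Equiv.Perm.SameCycle.setoid σ),
      (Finset.univ.filter fun p => q p = c).card := by
    rw [← Finset.card_univ]
    exact Finset.card_eq_sum_card_fiberwise (fun p _ => Finset.mem_univ _)
  have h2 : bad.card = ∑ c : Quotient (Equiv.Perm.SameCycle.setoid σ),
      (bad.filter fun p => q p = c).card :=
    Finset.card_eq_sum_card_fiberwise (fun p _ => Finset.mem_univ _)
  rw [h1, h2, Finset.mul_sum, ← Finset.sum_add_distrib, ← Finset.card_univ, mul_comm,
    ← smul_eq_mul, ← Finset.sum_const]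
  refine Finset.sum_le_sum fun c _ => ?_
  by_cases hc : (bad.filter fun p => q p = c).card = 0
  · obtain ⟨p, hp⟩ := Quotient.exists_rep c
    have hpb : p ∉ bad := fun h => by
      rw [Finset.card_eq_zero] at hc
      have : p ∈ bad.filter fun p => q p = c := Finset.mem_filter.2 ⟨h, hp⟩
      rw [hc] at this
      simp at this
    have hinj : ∀ i < l, ∀ j < l, i ≤ j → (σ ^ i) p = (σ ^ j) p → i = j := by
      intro i hi j hj hij he
      by_contra hne
      have h5 : (σ ^ (j - i)) p = p := by
        have h6 : (σ ^ i) ((σ ^ (j - i)) p) = (σ ^ i) p := by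
          rw [← Equiv.Perm.mul_apply, ← pow_add, Nat.add_sub_cancel' hij, he]
        exact (σ ^ i).injective h6
      exact hb p hpb (j - i) (by omega) (by omega) h5
    have h3 : (Finset.range l).card ≤ (Finset.univ.filter fun p => q p = c).card := by
      apply Finset.card_le_card_of_injOn (fun i => (σ ^ i) p)
      · intro i _
        simp only [Finset.coe_filter, Finset.mem_univ, true_and, Set.mem_ofPred_eq]
        rw [← hp]
        apply Quotient.sound
        exact ⟨-(i : ℤ), by simp⟩
      · intro i hi j hj he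
        simp only [Finset.coe_range, Set.mem_Iio] at hi hj
        rcases le_total i j with h | h
        · exact hinj i hi j hj h he
        · exact (hinj j hj i hi h he.symm).symm
    rw [Finset.card_range] at h3
    exact h3.trans (Nat.le_add_right _ _)
  · have h3 : 1 ≤ (bad.filter fun p => q p = c).card := Nat.one_le_iff_ne_zero.2 hc
    have h4 : l * 1 ≤ l * (bad.filter fun p => q p = c).card := Nat.mul_le_mul_left l h3
    omega

/-- the dimension of a space of functions that are constant on the cycles. -/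
theorem finrank_le_cycles {β : Type} [Fintype β] (σ : Equiv.Perm β)
    [Fintype (Quotient (Equiv.Perm.SameCycle.setoid σ))] (W : Submodule ℚ (β → ℚ))
    (hW : ∀ φ ∈ W, ∀ p, φ (σ p) = φ p) :
    Module.finrank ℚ W ≤ Fintype.card (Quotient (Equiv.Perm.SameCycle.setoid σ)) := by
  have hz : ∀ φ ∈ W, ∀ (i : ℤ) (p : β), φ ((σ ^ i) p) = φ p := by
    intro φ hφ i p
    induction i using Int.induction_on with
    | zero => simp
    | succ i ih =>
      rw [add_comm, zpow_add, zpow_one, Equiv.Perm.mul_apply, hW φ hφ, ih]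
    | pred i ih =>
      rw [← ih]
      have := hW φ hφ ((σ ^ (-(i : ℤ) - 1)) p)
      rw [← this, ← Equiv.Perm.mul_apply, ← zpow_one_add]
      congr 3
      ring
  let g : W →ₗ[ℚ] (Quotient (Equiv.Perm.SameCycle.setoid σ) → ℚ) :=
    { toFun := fun φ => fun c => Quotient.liftOn c φ.1 (by
        rintro a b ⟨i, rfl⟩
        exact (hz φ.1 φ.2 i a).symm)
      map_add' := fun φ ψ => by
        funext c
        obtain ⟨p, rfl⟩ := Quotient.exists_rep c
        rfl
      map_smul' := fun r φ => by
        funext c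
        obtain ⟨p, rfl⟩ := Quotient.exists_rep c
        rfl }
  have hg : Function.Injective g := by
    intro φ ψ h
    apply Subtype.ext
    funext p
    exact congrFun h (Quotient.mk _ p)
  have := LinearMap.finrank_le_finrank_of_injective hg
  rwa [Module.finrank_fintype_fun_eq_card] at this

/-! ## the identity -/

/-- the identity word has a large space. -/
theorem dim_id (n : ℕ) : n + 1 ≤ Module.finrank ℚ (Vs (finRotate (n + 1))
    (fr (0 : Fin (n + 1)) (((List.finRange n).map Fin.succ).map fun x => (x, true)))) := by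
  have hL : ∀ a b : Fin (n + 1) × Bool, Link (fr (0 : Fin (n + 1))
      (((List.finRange n).map Fin.succ).map fun x => (x, true))) a b →
      a.2 = true ∧ b = (finRotate (n + 1) a.1, true) := by
    intro a b h
    have e : fr (0 : Fin (n + 1)) (((List.finRange n).map Fin.succ).map fun x => (x, true)) =
        (List.finRange (n + 1)).map (fun x => (x, true)) ++ [(0, true)] := by
      simp [fr, List.finRange_succ]
    rw [e] at h
    rcases link_append.1 h with h | h | ⟨h, h'⟩
    · obtain ⟨i, h1, h2⟩ := link_iff_getElem?.1 h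
      rw [List.getElem?_map, Option.map_eq_some_iff] at h1 h2
      obtain ⟨x, hx, rfl⟩ := h1
      obtain ⟨y, hy, rfl⟩ := h2
      obtain ⟨hi1, hi2⟩ := List.getElem?_eq_some_iff.1 hx
      obtain ⟨hj1, hj2⟩ := List.getElem?_eq_some_iff.1 hy
      rw [List.getElem_finRange] at hi2 hj2
      rw [List.length_finRange] at hj1
      refine ⟨rfl, ?_⟩
      rw [Prod.mk.injEq]
      refine ⟨?_, rfl⟩
      have hlt : i < n := by omega
      have e2 : x = ⟨i, by omega⟩ := by rw [← hi2]; rfl
      have e3 : y = ⟨i + 1, by omega⟩ := by rw [← hj2]; rfl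
      rw [e2, e3, finRotate_of_lt hlt]
    · exfalso
      obtain ⟨i, h1, h2⟩ := link_iff_getElem?.1 h
      simp at h2
    · rw [List.finRange_succ_last, List.map_append, List.map_singleton,
        List.getLast?_append] at h
      simp only [List.getLast?_singleton, Option.some_or, Option.some.injEq] at h
      simp only [List.head?_cons, Option.some.injEq] at h'
      rw [← h, ← h']
      refine ⟨rfl, ?_⟩
      rw [finRotate_last]
  let g : (Fin (n + 1) → ℚ) →ₗ[ℚ] Vs (finRotate (n + 1)) (fr (0 : Fin (n + 1))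
      (((List.finRange n).map Fin.succ).map fun x => (x, true))) :=
    { toFun := fun f => ⟨fun p => if p.2 = true then f p.1 else f ((finRotate (n + 1)).symm p.1),
        by
          have h1 : ∀ x, (if (x, true).2 = true then f (x, true).1 else
              f ((finRotate (n + 1)).symm (x, true).1)) =
              (if ((finRotate (n + 1)) x, false).2 = true then
                f ((finRotate (n + 1)) x, false).1 else
              f ((finRotate (n + 1)).symm ((finRotate (n + 1)) x, false).1)) := by
            intro x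
            simp
          refine ⟨h1, fun a b h => ?_⟩
          obtain ⟨h2, rfl⟩ := hL a b h
          simp [h2, br]⟩
      map_add' := fun f f' => by
        apply Subtype.ext
        funext p
        simp only [Submodule.coe_add, Pi.add_apply]
        split_ifs <;> rfl
      map_smul' := fun r f => by
        apply Subtype.ext
        funext p
        simp only [Submodule.coe_smul, Pi.smul_apply, RingHom.id_apply]
        split_ifs <;> rfl }
  have hg : Function.Injective g := by
    intro f f' h
    funext x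
    have h0 : (g f).1 (x, true) = (g f').1 (x, true) := by rw [h]
    simpa [g] using h0
  have := LinearMap.finrank_le_finrank_of_injective hg
  rwa [Module.finrank_fintype_fun_eq_card, Fintype.card_fin] at this

/-! ## the word of a permutation -/

theorem ext_zero {n : ℕ} (π : Equiv.Perm (Fin n)) : ext π 0 = 0 := by
  simp [ext]

theorem ext_succ {n : ℕ} (π : Equiv.Perm (Fin n)) (i : Fin n) : ext π i.succ = (π i).succ := by
  simp [ext]

theorem ofFn_ext {n : ℕ} (π : Equiv.Perm (Fin n)) :
    (0 : Fin (n + 1)) :: (List.ofFn π).map Fin.succ = List.ofFn (ext π) := by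
  rw [List.ofFn_succ, ext_zero, List.map_ofFn]
  congr 2

/-- the signs of a signed word. -/
theorem signs (n : ℕ) (π : Equiv.Perm (Fin n)) (u : List (Fin (n + 1) × Bool))
    (hu : u.map Prod.fst = (List.ofFn π).map Fin.succ) :
    ∃ s : Fin (n + 1) → Bool, ∀ x, Link (fr 0 u) (x, s x)
      ((ext π * finRotate (n + 1) * (ext π)⁻¹) x,
        s ((ext π * finRotate (n + 1) * (ext π)⁻¹) x)) := by
  set e := ext π with he
  set P := ((0 : Fin (n + 1)), true) :: u with hP
  have hPf : P.map Prod.fst = List.ofFn e := by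
    rw [hP, List.map_cons, hu]
    exact ofFn_ext π
  let s : Fin (n + 1) → Bool := fun x => (P.getD (e.symm x).val (0, true)).2
  have hPi : ∀ i : Fin (n + 1), P[i.val]? = some (e i, s (e i)) := by
    intro i
    have h1 : (P.map Prod.fst)[i.val]? = some (e i) := by
      rw [hPf, List.getElem?_ofFn]
      simp [Nat.lt_succ_iff.1 i.is_lt]
    rw [List.getElem?_map, Option.map_eq_some_iff] at h1
    obtain ⟨p, hp, hp1⟩ := h1
    rw [hp]
    congr 1
    refine Prod.ext hp1 ?_
    change p.2 = (P.getD (e.symm (e i)).val (0, true)).2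
    rw [Equiv.symm_apply_apply, List.getD_eq_getElem?_getD, hp]
    rfl
  have hfr : fr 0 u = P ++ [(0, true)] := rfl
  refine ⟨s, fun x => ?_⟩
  have hβ : (e * finRotate (n + 1) * e⁻¹) x = e (finRotate (n + 1) (e.symm x)) := rfl
  have hx := hPi (e.symm x)
  rw [Equiv.apply_symm_apply] at hx
  rw [hfr, hβ]
  rcases Fin.eq_castSucc_or_eq_last (e.symm x) with ⟨j, hj⟩ | hj
  · refine Link.append_right (link_iff_getElem?.2 ⟨(e.symm x).val, hx, ?_⟩) _
    have h2 := hPi j.succ
    have h3 : finRotate (n + 1) (e.symm x) = j.succ := by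
      rw [hj, finRotate_apply, Fin.coeSucc_eq_succ]
    rw [h3]
    have h4 : (e.symm x).val + 1 = j.succ.val := by
      rw [hj]
      simp
    rw [h4]
    exact h2
  · have h3 : finRotate (n + 1) (e.symm x) = 0 := by
      rw [hj, finRotate_last]
    have h5 := hPi 0
    rw [hP] at h5
    simp only [Fin.val_zero, List.getElem?_cons_zero, Option.some.injEq] at h5
    rw [h3, ← h5]
    refine link_append.2 (Or.inr (Or.inr ⟨?_, rfl⟩))
    have hlen : P.length = n + 1 := by
      have := congrArg List.length hPf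
      simpa using this
    rw [List.getLast?_eq_getElem?, hlen, ← hx, hj]
    simp

/-! ## the two involutions and walks -/

/-- the value involution. -/
def Gp {α : Type} (γ : Equiv.Perm α) : Equiv.Perm (α × Bool) where
  toFun p := if p.2 = true then (γ p.1, false) else (γ.symm p.1, true)
  invFun p := if p.2 = true then (γ p.1, false) else (γ.symm p.1, true)
  left_inv := by
    rintro ⟨x, ε⟩
    cases ε <;> simp
  right_inv := by
    rintro ⟨x, ε⟩
    cases ε <;> simp

/-- the map of the word involution. -/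
def Bf {α : Type} (β : Equiv.Perm α) (s : α → Bool) (p : α × Bool) : α × Bool :=
  if p.2 = s p.1 then (β p.1, !s (β p.1)) else (β.symm p.1, s (β.symm p.1))

theorem Bf_Bf {α : Type} (β : Equiv.Perm α) (s : α → Bool) (p : α × Bool) :
    Bf β s (Bf β s p) = p := by
  obtain ⟨x, ε⟩ := p
  by_cases h : ε = s x
  · have h1 : Bf β s (x, ε) = (β x, !s (β x)) := if_pos h
    rw [h1]
    have h2 : Bf β s (β x, !s (β x)) = (β.symm (β x), s (β.symm (β x))) :=
      if_neg (by cases s (β x) <;> simp)
    rw [h2, Equiv.symm_apply_apply, h]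
  · have h1 : Bf β s (x, ε) = (β.symm x, s (β.symm x)) := if_neg h
    rw [h1]
    have h2 : Bf β s (β.symm x, s (β.symm x)) = (β (β.symm x), !s (β (β.symm x))) := if_pos rfl
    rw [h2, Equiv.apply_symm_apply]
    congr 1
    revert h
    cases ε <;> cases s x <;> simp

/-- the word involution. -/
def Bp {α : Type} (β : Equiv.Perm α) (s : α → Bool) : Equiv.Perm (α × Bool) where
  toFun := Bf β s
  invFun := Bf β s
  left_inv := Bf_Bf β s
  right_inv := Bf_Bf β s

/-- the walk of a power of the product of the two involutions. -/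
def wl {α : Type} (β γ : Equiv.Perm α) (s : α → Bool) : ℕ → α × Bool → List (Bool × Bool)
  | 0, _ => []
  | m + 1, p => (true, p.2) :: (false, decide ((Gp γ p).2 = s (Gp γ p).1)) ::
      wl β γ s m ((Bp β s * Gp γ) p)

theorem wl_length {α : Type} (β γ : Equiv.Perm α) (s : α → Bool) : ∀ (m : ℕ) (p : α × Bool),
    (wl β γ s m p).length = 2 * m
  | 0, _ => rfl
  | m + 1, p => by
    simp only [wl, List.length_cons, wl_length β γ s m]
    omega

theorem wl_act {α : Type} (β γ : Equiv.Perm α) (s : α → Bool) : ∀ (m : ℕ) (p : α × Bool),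
    act β γ (wl β γ s m p) p.1 = (((Bp β s * Gp γ) ^ m) p).1
  | 0, _ => rfl
  | m + 1, p => by
    rw [pow_succ, Equiv.Perm.mul_apply, ← wl_act β γ s m]
    simp only [wl, act]
    congr 1
    have h1 : gen β γ (true, p.2) p.1 = (Gp γ p).1 := by
      obtain ⟨x, ε⟩ := p
      cases ε <;> rfl
    rw [h1]
    change _ = (Bf β s (Gp γ p)).1
    unfold Bf
    by_cases h : (Gp γ p).2 = s (Gp γ p).1
    · simp only [h, decide_true, if_true]
      rfl
    · simp only [h, decide_false, if_false]
      rfl

theorem wl_red {α : Type} (β γ : Equiv.Perm α) (s : α → Bool) : ∀ (m : ℕ) (p : α × Bool),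
    Red (wl β γ s m p)
  | 0, _ => by simp [wl, Red]
  | 1, p => by
    simp [wl, Red]
  | m + 2, p => by
    have h := wl_red β γ s (m + 1) ((Bp β s * Gp γ) p)
    rw [wl]
    unfold Red at h ⊢
    rw [wl] at h ⊢
    rw [List.isChain_cons_cons, List.isChain_cons_cons]
    exact ⟨by simp, by simp, h⟩

end LOWM

open LOWM in
theorem LOW : SpecLOW := by
  intro n l k π hl h
  classical
  set γ := finRotate (n + 1) with hγ
  set β := ext π * finRotate (n + 1) * (ext π)⁻¹ with hβ
  -- moves on the words with letters in `Fin (n + 1)`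
  have hmap : ∀ (k : ℕ) (u v : List (Fin n)), Steps k u v →
      Steps k (u.map Fin.succ) (v.map Fin.succ) := by
    intro k
    induction k with
    | zero =>
      intro u v h
      exact congrArg (List.map Fin.succ) h
    | succ k ih =>
      rintro u v ⟨w, ⟨A, B, C, U, V, hB, rfl, hAC, hw⟩, hs⟩
      refine ⟨w.map Fin.succ, ⟨A.map Fin.succ, B.map Fin.succ, C.map Fin.succ, U.map Fin.succ,
        V.map Fin.succ, by simpa using hB, by simp, by simp [← List.map_append, hAC], ?_⟩,
        ih _ _ hs⟩
      rcases hw with rfl | rfl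
      · left; simp
      · right; simp
  obtain ⟨u, hu, hd⟩ := lift (γ := γ) (o := (0 : Fin (n + 1))) k _ _ (hmap k _ _ h)
    (((List.finRange n).map Fin.succ).map fun x => (x, true)) (by
      rw [List.map_map]
      exact List.map_id _)
  have hid := dim_id n
  obtain ⟨s, hs⟩ := signs n π u hu
  have hfin : Fintype (Quotient (Equiv.Perm.SameCycle.setoid (Bp β s * Gp γ))) :=
    Fintype.ofFinite _
  have h1 := finrank_le_cycles (Bp β s * Gp γ) (Vs γ (fr 0 u)) (by
    rintro φ ⟨hφ1, hφ2⟩ p
    have hG : ∀ p, φ (Gp γ p) = φ p := by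
      rintro ⟨x, ε⟩
      cases ε
      · change φ (γ.symm x, true) = φ (x, false)
        rw [hφ1, Equiv.apply_symm_apply]
      · exact (hφ1 x).symm
    have hB : ∀ p, φ (Bf β s p) = φ p := by
      rintro ⟨x, ε⟩
      have hx : ∀ y, φ (y, s y) = φ (β y, !s (β y)) := fun y => hφ2 _ _ (hs y)
      by_cases h : ε = s x
      · have h1 : Bf β s (x, ε) = (β x, !s (β x)) := if_pos h
        rw [h1, ← hx, h]
      · have h1 : Bf β s (x, ε) = (β.symm x, s (β.symm x)) := if_neg h
        rw [h1, hx, Equiv.apply_symm_apply]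
        congr 2
        revert h
        cases ε <;> cases s x <;> simp
    rw [Equiv.Perm.mul_apply]
    exact (hB _).trans (hG p))
  have h2 := card_cycles (Bp β s * Gp γ) l
    ((Finset.univ.filter fun x : Fin (n + 1) => Bad β γ (2 * l) x) ×ˢ
      (Finset.univ : Finset Bool)) (by
    rintro ⟨x, ε⟩ hp m hm1 hm2 he
    apply hp
    rw [Finset.mem_product, Finset.mem_filter]
    refine ⟨⟨Finset.mem_univ _, wl β γ s m (x, ε), ?_, ?_, wl_red β γ s m _, ?_⟩,
      Finset.mem_univ _⟩
    · intro h0
      have := wl_length β γ s m (x, ε)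
      rw [h0] at this
      simp at this
      omega
    · rw [wl_length]
      omega
    · have := wl_act β γ s m (x, ε)
      rw [he] at this
      exact this)
  rw [Finset.card_product, Finset.card_univ, Fintype.card_bool, Fintype.card_prod,
    Fintype.card_fin, Fintype.card_bool] at h2
  have h3 : (Finset.univ.filter fun x : Fin (n + 1) => Bad β γ (2 * l) x).card =
      nBad β γ (2 * l) := by
    unfold nBad
    congr 1
  rw [h3] at h2
  have h4 : n + 1 ≤ Fintype.card (Quotient (Equiv.Perm.SameCycle.setoid (Bp β s * Gp γ))) +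
      2 * k := by
    refine hid.trans (hd.trans ?_)
    omega
  have h5 : l * (n + 1) ≤
      l * Fintype.card (Quotient (Equiv.Perm.SameCycle.setoid (Bp β s * Gp γ))) + l * (2 * k) := by
    rw [← Nat.mul_add]
    exact Nat.mul_le_mul_left l h4
  calc l * (n + 1) ≤ _ := h5
    _ ≤ ((n + 1) * 2 + l * (nBad β γ (2 * l) * 2)) + l * (2 * k) := Nat.add_le_add_right h2 _
    _ = 2 * (n + 1) + 2 * l * k + 2 * l * nBad β γ (2 * l) := by ring

end Pool.Agent.Lib.MP29a61e.RP
end

section
set_option autoImplicit false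

/-!
# MP_29a61e_co, random permutations: the expected number of bad letters (module PRB)
-/

namespace Pool.Agent.Lib.MP29a61e.RP

open Pool.Agent.Lib.MP29a61e

namespace PRBM

open Equiv

/-- lists of labels of length at most `r`. -/
def LL (r : ℕ) : Finset (List (Bool × Bool)) :=
  (Finset.range (r + 1)).biUnion fun k =>
    (Finset.univ : Finset (Fin k → Bool × Bool)).image List.ofFn

theorem mem_LL {r : ℕ} {l : List (Bool × Bool)} (h : l.length ≤ r) : l ∈ LL r := by
  unfold LL
  rw [Finset.mem_biUnion]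
  refine ⟨l.length, by rw [Finset.mem_range]; omega, ?_⟩
  rw [Finset.mem_image]
  exact ⟨l.get, Finset.mem_univ _, List.ofFn_get l⟩

theorem act_append {α : Type} (β γ : Perm α) (a b : List (Bool × Bool)) (x : α) :
    act β γ (a ++ b) x = act β γ b (act β γ a x) := by
  induction a generalizing x with
  | nil => rfl
  | cons g a ih => exact ih _

theorem act_inj {α : Type} (β γ : Perm α) (a : List (Bool × Bool)) {x y : α}
    (h : act β γ a x = act β γ a y) : x = y := by
  induction a generalizing x y with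
  | nil => exact h
  | cons g a ih => exact (gen β γ g).injective (ih h)

theorem act_take_succ {α : Type} (β γ : Perm α) (l : List (Bool × Bool)) (i : ℕ)
    (h : i < l.length) (x : α) :
    act β γ (l.take (i + 1)) x = gen β γ l[i] (act β γ (l.take i) x) := by
  rw [List.take_succ_eq_append_getElem h, act_append]
  rfl

/-- a closed walk with different letters. -/
def Simple {α : Type} (β γ : Perm α) (m : List (Bool × Bool)) (y : α) : Prop :=
  act β γ m y = y ∧ ∀ i j, i < j → j < m.length →
    act β γ (m.take i) y ≠ act β γ (m.take j) y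

theorem exists_simple {α : Type} (β γ : Perm α) : ∀ (k : ℕ) (l : List (Bool × Bool)) (x : α),
    l.length ≤ k → l ≠ [] → Red l → act β γ l x = x →
    ∃ p m, p.length + m.length ≤ l.length ∧ m ≠ [] ∧ Red m ∧ Simple β γ m (act β γ p x) := by
  intro k
  induction k with
  | zero =>
    intro l x h1 h2
    exact absurd (List.length_eq_zero_iff.1 (by omega)) h2
  | succ k ih =>
    intro l x h1 h2 h3 h4
    by_cases hs : ∀ i j, i < j → j < l.length → act β γ (l.take i) x ≠ act β γ (l.take j) x
    · exact ⟨[], l, by simp, h2, h3, h4, hs⟩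
    · push Not at hs
      obtain ⟨i, j, hij, hj, he⟩ := hs
      have e1 : l.take j = l.take i ++ (l.take j).drop i := by
        conv_lhs => rw [← List.take_append_drop i (l.take j)]
        rw [List.take_take, min_eq_left hij.le]
      have hlen : ((l.take j).drop i).length = j - i := by
        rw [List.length_drop, List.length_take, min_eq_left hj.le]
      obtain ⟨p, m, a1, a2, a3, a4⟩ := ih ((l.take j).drop i) (act β γ (l.take i) x)
        (by rw [hlen]; omega)
        (by intro h; rw [h] at hlen; simp at hlen; omega)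
        ((h3.take j).drop i)
        (by rw [← act_append, ← e1, he])
      refine ⟨l.take i ++ p, m, ?_, a2, a3, ?_⟩
      · rw [List.length_append, List.length_take, min_eq_left (by omega)]
        rw [hlen] at a1
        omega
      · rw [act_append]; exact a4

/-- rotation by one step in a direction. -/
def rr (n : ℕ) (e : Bool) : Perm (Fin (n + 1)) :=
  if e then finRotate (n + 1) else (finRotate (n + 1))⁻¹

theorem gen_γ {n : ℕ} (π : Perm (Fin (n + 1))) {g : Bool × Bool} (h : g.1 = true)
    (x : Fin (n + 1)) :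
    gen (π * finRotate (n + 1) * π⁻¹) (finRotate (n + 1)) g x = rr n g.2 x := by
  obtain ⟨a, b⟩ := g
  dsimp only at h
  subst h
  cases b <;> rfl

theorem gen_β {n : ℕ} (π : Perm (Fin (n + 1))) {g : Bool × Bool} (h : g.1 = false)
    (x : Fin (n + 1)) :
    π⁻¹ (gen (π * finRotate (n + 1) * π⁻¹) (finRotate (n + 1)) g x) = rr n g.2 (π⁻¹ x) := by
  obtain ⟨a, b⟩ := g
  dsimp only at h
  subst h
  cases b
  · show π⁻¹ ((π * finRotate (n + 1) * π⁻¹)⁻¹ x) = (finRotate (n + 1))⁻¹ (π⁻¹ x)
    simp [mul_assoc]
  · show π⁻¹ ((π * finRotate (n + 1) * π⁻¹) x) = (finRotate (n + 1)) (π⁻¹ x)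
    simp [mul_assoc]

theorem rr_pow {n : ℕ} (e : Bool) (L : ℕ) (h1 : 0 < L) (h2 : L < n + 1) (x : Fin (n + 1)) :
    ((rr n e) ^ L) x ≠ x := by
  have key : ∀ y : Fin (n + 1), ((finRotate (n + 1)) ^ L) y ≠ y := by
    intro y
    have h3 : ∀ (k : ℕ), ((((finRotate (n + 1)) ^ k) y : Fin (n + 1)) : ℕ) =
        ((y : ℕ) + k) % (n + 1) := by
      intro k
      induction k with
      | zero => simp [Nat.mod_eq_of_lt y.isLt]
      | succ k ih =>
        rw [pow_succ', Perm.mul_apply, finRotate_apply, Fin.val_add, ih, Fin.val_one',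
          ← Nat.add_mod, add_assoc]
    intro h
    have h4 := h3 L
    rw [h] at h4
    have h5 := y.isLt
    rcases Nat.lt_or_ge ((y : ℕ) + L) (n + 1) with h6 | h6
    · rw [Nat.mod_eq_of_lt h6] at h4; omega
    · rw [Nat.mod_eq_sub_mod h6, Nat.mod_eq_of_lt (by omega)] at h4; omega
  unfold rr
  cases e
  · rw [if_neg (by decide), inv_pow]
    intro h
    apply key x
    conv_lhs => rw [← h]
    simp
  · rw [if_pos rfl]
    exact key x

/-- a reduced word in one generator. -/
theorem eq_replicate {b : Bool} : ∀ (l : List (Bool × Bool)), Red l → (∀ g ∈ l, g.1 = b) →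
    ∀ g, l.head? = some g → l = List.replicate l.length g := by
  intro l
  induction l with
  | nil => intro _ _ g hg; simp at hg
  | cons a l ih =>
    intro h1 h2 g hg
    rw [List.head?_cons, Option.some.injEq] at hg
    subst hg
    rw [List.length_cons, List.replicate_succ]
    congr 1
    cases l with
    | nil => rfl
    | cons c l =>
      have h3 : Red (c :: l) := List.IsChain.tail h1
      have h4 : ¬ (a.1 = c.1 ∧ a.2 ≠ c.2) := by
        have := h1
        unfold Red at this
        rw [List.isChain_cons_cons] at this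
        exact this.1
      have h5 : a.1 = c.1 := by rw [h2 a (by simp), h2 c (by simp)]
      have h6 : c = a := by
        apply Prod.ext h5.symm
        by_contra h
        exact h4 ⟨h5, fun h' => h h'.symm⟩
      have := ih h3 (fun g hg => h2 g (List.mem_cons_of_mem _ hg)) a (by rw [h6]; rfl)
      exact this

theorem act_replicate {α : Type} (β γ : Perm α) (g : Bool × Bool) (k : ℕ) (x : α) :
    act β γ (List.replicate k g) x = ((gen β γ g) ^ k) x := by
  induction k generalizing x with
  | zero => rfl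
  | succ k ih =>
    rw [List.replicate_succ, pow_succ, Perm.mul_apply]
    exact ih _

/-- a closed reduced walk uses both generators. -/
theorem mixed {n : ℕ} (π : Perm (Fin (n + 1))) (l : List (Bool × Bool)) (x : Fin (n + 1))
    (hl : l ≠ []) (hn : l.length < n + 1) (hr : Red l)
    (h : act (π * finRotate (n + 1) * π⁻¹) (finRotate (n + 1)) l x = x) (b : Bool) :
    ∃ g ∈ l, g.1 = b := by
  by_contra hc
  push Not at hc
  have h1 : ∀ g ∈ l, g.1 = !b := by
    intro g hg
    have := hc g hg
    revert this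
    cases g.1 <;> cases b <;> simp
  obtain ⟨g, hg⟩ : ∃ g, l.head? = some g := by
    cases l with
    | nil => exact absurd rfl hl
    | cons a l => exact ⟨a, rfl⟩
  have h2 := eq_replicate l hr h1 g hg
  have h3 : 0 < l.length := List.length_pos_iff.2 hl
  rw [h2, act_replicate] at h
  have hgm : g ∈ l := List.mem_of_mem_head? hg
  cases hb : g.1
  · have h4 : ∀ (k : ℕ) (y : Fin (n + 1)),
        π⁻¹ (((gen (π * finRotate (n + 1) * π⁻¹) (finRotate (n + 1)) g) ^ k) y) =
          ((rr n g.2) ^ k) (π⁻¹ y) := by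
      intro k
      induction k with
      | zero => intro y; rfl
      | succ k ih =>
        intro y
        rw [pow_succ, Perm.mul_apply, ih, gen_β π hb, pow_succ, Perm.mul_apply]
    have h5 := h4 l.length x
    rw [h] at h5
    exact rr_pow g.2 l.length h3 hn _ h5.symm
  · have h4 : ∀ (k : ℕ) (y : Fin (n + 1)),
        (((gen (π * finRotate (n + 1) * π⁻¹) (finRotate (n + 1)) g) ^ k) y) =
          ((rr n g.2) ^ k) y := by
      intro k
      induction k with
      | zero => intro y; rfl
      | succ k ih =>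
        intro y
        rw [pow_succ, Perm.mul_apply, ih, gen_γ π hb, pow_succ, Perm.mul_apply]
    rw [h4] at h
    exact rr_pow g.2 l.length h3 hn _ h

/-- number of permutations through given points. -/
theorem card_through (N L : ℕ) (q v : Fin L ↪ Fin N) :
    (Finset.univ.filter fun π : Perm (Fin N) => ∀ i, π (q i) = v i).card * N.descFactorial L =
      N.factorial := by
  classical
  have h1 : ∀ v' : Fin L ↪ Fin N,
      (Finset.univ.filter fun π : Perm (Fin N) => q.trans π.toEmbedding = v').card =
      (Finset.univ.filter fun π : Perm (Fin N) => ∀ i, π (q i) = v i).card := by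
    intro v'
    obtain ⟨σ, hσ'⟩ := Equiv.Perm.exists_extending_pair v' v v'.injective v.injective
    refine Finset.card_bij (fun π _ => σ * π) ?_ ?_ ?_
    · intro π hπ
      rw [Finset.mem_filter] at hπ ⊢
      refine ⟨Finset.mem_univ _, fun i => ?_⟩
      rw [Perm.mul_apply, ← hσ' i, ← hπ.2]
      rfl
    · intro π _ π' _ h
      exact mul_left_cancel h
    · intro π hπ
      rw [Finset.mem_filter] at hπ
      refine ⟨σ⁻¹ * π, ?_, by simp⟩
      rw [Finset.mem_filter]
      refine ⟨Finset.mem_univ _, ?_⟩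
      ext i
      show ((σ⁻¹ * π) (q i) : ℕ) = _
      rw [Perm.mul_apply, hπ.2 i, ← hσ' i]
      simp
  have h2 : (Finset.univ : Finset (Perm (Fin N))).card =
      ∑ v' : Fin L ↪ Fin N,
        (Finset.univ.filter fun π : Perm (Fin N) => q.trans π.toEmbedding = v').card := by
    rw [← Finset.card_eq_sum_card_fiberwise]
    intro π _
    exact Finset.mem_coe.2 (Finset.mem_univ _)
  rw [Finset.sum_congr rfl (fun v' _ => h1 v'), Finset.sum_const, Finset.card_univ,
    Finset.card_univ, Fintype.card_perm, Fintype.card_embedding_eq, Fintype.card_fin,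
    Fintype.card_fin, smul_eq_mul] at h2
  rw [h2, mul_comm]

theorem one_eq {X : Type} (L : ℕ) (P : ℕ → Prop) (v v' : ℕ → X)
    (hs : ∀ i < L, v (i + 1) ≠ v' (i + 1) → P i ∧ v i ≠ v' i) (hc : v L = v 0)
    (hc' : v' L = v' 0) (hne : ∃ i < L, ¬ P i) : ∀ i ≤ L, v i = v' i := by
  have hA : ∀ i, i ≤ L → v i ≠ v' i → v 0 ≠ v' 0 := by
    intro i
    induction i with
    | zero => intro _ h; exact h
    | succ i ih => intro h1 h2; exact ih (by omega) (hs i (by omega) h2).2
  intro i hi
  by_contra hne'
  have h0 := hA i hi hne'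
  rw [← hc, ← hc'] at h0
  have hB : ∀ k, k ≤ L → v (L - k) ≠ v' (L - k) := by
    intro k
    induction k with
    | zero => intro _; exact h0
    | succ k ih =>
      intro hk
      have h1 := ih (by omega)
      have e : L - k = (L - (k + 1)) + 1 := by omega
      rw [e] at h1
      exact (hs _ (by omega) h1).2
  obtain ⟨j, hj, hPj⟩ := hne
  have h1 := hB (L - (j + 1)) (by omega)
  have e : L - (L - (j + 1)) = j + 1 := by omega
  rw [e] at h1
  exact hPj (hs j hj h1).1

/-- number of closed walks with different letters and given labels. -/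
theorem card_simple {n : ℕ} (l : List (Bool × Bool)) (ht : ∃ g ∈ l, g.1 = true)
    (hf : ∃ g ∈ l, g.1 = false) (hn : 2 * l.length ≤ n + 1)
    (S : Finset (Perm (Fin (n + 1)) × Fin (n + 1)))
    (hS : ∀ z ∈ S, Simple (z.1 * finRotate (n + 1) * z.1⁻¹) (finRotate (n + 1)) l z.2) :
    S.card ≤ 2 ^ l.length * (n + 1).factorial := by
  classical
  obtain ⟨V, hV⟩ : ∃ V : Perm (Fin (n + 1)) × Fin (n + 1) → ℕ → Fin (n + 1), ∀ z i, V z i =
    act (z.1 * finRotate (n + 1) * z.1⁻¹) (finRotate (n + 1)) (l.take i) z.2 :=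
    ⟨_, fun _ _ => rfl⟩
  obtain ⟨Q, hQ⟩ : ∃ Q : Perm (Fin (n + 1)) × Fin (n + 1) → ℕ → Fin (n + 1), ∀ z i, Q z i =
    z.1⁻¹ (V z i) := ⟨_, fun _ _ => rfl⟩
  have hV1 : ∀ z i (h : i < l.length), l[i].1 = true → V z (i + 1) = rr n l[i].2 (V z i) := by
    intro z i h h'
    rw [hV, hV, act_take_succ _ _ _ _ h, gen_γ z.1 h']
  have hQ1 : ∀ z i (h : i < l.length), l[i].1 = false → Q z (i + 1) = rr n l[i].2 (Q z i) := by
    intro z i h h'
    rw [hQ, hQ, hV, hV, act_take_succ _ _ _ _ h, gen_β z.1 h']
  have hV0 : ∀ z ∈ S, V z l.length = V z 0 := by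
    intro z hz
    rw [hV, hV, List.take_length, (hS z hz).1]
    rfl
  have hQ0 : ∀ z ∈ S, Q z l.length = Q z 0 := by
    intro z hz
    rw [hQ, hQ, hV0 z hz]
  obtain ⟨w, hw⟩ : ∃ w : Perm (Fin (n + 1)) × Fin (n + 1) → (Fin l.length → Fin (n + 1)),
    ∀ z i, w z i = if l[i].1 = true then Q z (i + 1) else V z (i + 1) := ⟨_, fun _ _ => rfl⟩
  obtain ⟨gt, hgt, ht'⟩ := ht
  obtain ⟨it, hit, hit'⟩ := List.getElem_of_mem hgt
  obtain ⟨gf, hgf, hf'⟩ := hf
  obtain ⟨jf, hjf, hjf'⟩ := List.getElem_of_mem hgf
  have hwV : ∀ z ∈ S, ∀ z' ∈ S, w z = w z' → ∀ i ≤ l.length, V z i = V z' i := by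
    intro z hz z' hz' hzz
    refine one_eq l.length (fun i => ∃ h : i < l.length, l[i].1 = true) (V z) (V z') ?_
      (hV0 z hz) (hV0 z' hz') ⟨jf, hjf, ?_⟩
    · intro i hi hne
      by_cases hb : l[i].1 = true
      · refine ⟨⟨hi, hb⟩, fun he => hne ?_⟩
        rw [hV1 z i hi hb, hV1 z' i hi hb, he]
      · exfalso
        apply hne
        have h1 := congrFun hzz ⟨i, hi⟩
        rw [hw, hw] at h1
        simp only [Fin.getElem_fin] at h1
        rwa [if_neg hb, if_neg hb] at h1
    · rintro ⟨h, h'⟩
      rw [hjf', hf'] at h'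
      exact Bool.false_ne_true h'
  have hwQ : ∀ z ∈ S, ∀ z' ∈ S, w z = w z' → ∀ i ≤ l.length, Q z i = Q z' i := by
    intro z hz z' hz' hzz
    refine one_eq l.length (fun i => ∃ h : i < l.length, l[i].1 = false) (Q z) (Q z') ?_
      (hQ0 z hz) (hQ0 z' hz') ⟨it, hit, ?_⟩
    · intro i hi hne
      by_cases hb : l[i].1 = true
      · exfalso
        apply hne
        have h1 := congrFun hzz ⟨i, hi⟩
        rw [hw, hw] at h1
        simp only [Fin.getElem_fin] at h1
        rwa [if_pos hb, if_pos hb] at h1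
      · rw [Bool.not_eq_true] at hb
        refine ⟨⟨hi, hb⟩, fun he => hne ?_⟩
        rw [hQ1 z i hi hb, hQ1 z' i hi hb, he]
    · rintro ⟨h, h'⟩
      rw [hit', ht'] at h'
      exact Bool.false_ne_true h'.symm
  have hLn : l.length ≤ n + 1 := by omega
  have key : S.card ≤ (n + 1 - l.length).factorial *
      (Finset.univ : Finset (Fin l.length → Fin (n + 1))).card := by
    refine Finset.card_le_mul_card_image_of_maps_to (f := w) (fun _ _ => Finset.mem_univ _) _ ?_
    intro b _
    rcases Finset.eq_empty_or_nonempty (S.filter fun z => w z = b) with h0 | ⟨z₀, hz₀⟩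
    · rw [h0]; simp
    · rw [Finset.mem_filter] at hz₀
      have hinj : ∀ i j, i < j → j < l.length → V z₀ i ≠ V z₀ j := by
        intro i j h1 h2
        rw [hV, hV]
        exact (hS z₀ hz₀.1).2 i j h1 h2
      have hinj' : ∀ i j, i < l.length → j < l.length → V z₀ i = V z₀ j → i = j := by
        intro i j h1 h2 h3
        rcases Nat.lt_trichotomy i j with h | h | h
        · exact absurd h3 (hinj i j h h2)
        · exact h
        · exact absurd h3.symm (hinj j i h h1)
      let v : Fin l.length ↪ Fin (n + 1) := ⟨fun i => V z₀ i, by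
        intro i j h
        exact Fin.ext (hinj' _ _ i.isLt j.isLt h)⟩
      let q : Fin l.length ↪ Fin (n + 1) := ⟨fun i => Q z₀ i, by
        intro i j h
        have h' : Q z₀ i = Q z₀ j := h
        rw [hQ, hQ] at h'
        exact Fin.ext (hinj' _ _ i.isLt j.isLt (z₀.1⁻¹.injective h'))⟩
      have h1 := card_through (n + 1) l.length q v
      rw [← Nat.factorial_mul_descFactorial hLn] at h1
      have h2 := Nat.eq_of_mul_eq_mul_right
        (Nat.pos_of_ne_zero (fun h => (Nat.not_lt.2 hLn) (Nat.descFactorial_eq_zero_iff_lt.1 h))) h1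
      rw [← h2]
      refine Finset.card_le_card_of_injOn (fun z => z.1) ?_ ?_
      · intro z hz
        rw [Finset.mem_coe, Finset.mem_filter] at hz ⊢
        refine ⟨Finset.mem_univ _, fun i => ?_⟩
        show z.1 (Q z₀ i) = V z₀ i
        have hzw : w z = w z₀ := by rw [hz.2, hz₀.2]
        rw [← hwQ z hz.1 z₀ hz₀.1 hzw i i.isLt.le, ← hwV z hz.1 z₀ hz₀.1 hzw i i.isLt.le, hQ]
        simp
      · intro z hz z' hz' he
        rw [Finset.mem_coe, Finset.mem_filter] at hz hz'
        have hzw : w z = w z' := by rw [hz.2, hz'.2]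
        have h3 := hwV z hz.1 z' hz'.1 hzw 0 (Nat.zero_le _)
        rw [hV, hV] at h3
        exact Prod.ext he h3
  rw [Finset.card_univ, Fintype.card_fun, Fintype.card_fin, Fintype.card_fin] at key
  have h4 : (n + 1) ^ l.length ≤ 2 ^ l.length * (n + 1).descFactorial l.length := by
    calc (n + 1) ^ l.length ≤ (2 * (n + 1 + 1 - l.length)) ^ l.length :=
          Nat.pow_le_pow_left (by omega) _
      _ = 2 ^ l.length * (n + 1 + 1 - l.length) ^ l.length := Nat.mul_pow _ _ _
      _ ≤ _ := Nat.mul_le_mul_left _ (Nat.pow_sub_le_descFactorial _ _)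
  calc S.card ≤ (n + 1 - l.length).factorial * (n + 1) ^ l.length := key
    _ ≤ (n + 1 - l.length).factorial * (2 ^ l.length * (n + 1).descFactorial l.length) :=
        Nat.mul_le_mul_left _ h4
    _ = 2 ^ l.length * ((n + 1 - l.length).factorial * (n + 1).descFactorial l.length) := by ring
    _ = _ := by rw [Nat.factorial_mul_descFactorial hLn]

end PRBM

open PRBM Equiv in
theorem specPRB : SpecPRB := by
  classical
  intro r
  refine ⟨(LL r).card * (LL r).card * 2 ^ r + (2 * r + 2), fun n => ?_⟩
  by_cases hn : n + 1 < 2 * r + 2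
  · have h1 : ∀ π : Perm (Fin (n + 1)),
        nBad (π * finRotate (n + 1) * π⁻¹) (finRotate (n + 1)) r ≤ 2 * r + 2 := by
      intro π
      unfold nBad
      refine (Finset.card_le_univ _).trans ?_
      rw [Fintype.card_fin]
      omega
    calc ∑ π : Perm (Fin (n + 1)), nBad (π * finRotate (n + 1) * π⁻¹) (finRotate (n + 1)) r
        ≤ ∑ _π : Perm (Fin (n + 1)), (2 * r + 2) := Finset.sum_le_sum fun π _ => h1 π
      _ = (2 * r + 2) * (n + 1).factorial := by
          rw [Finset.sum_const, Finset.card_univ, Fintype.card_perm, Fintype.card_fin,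
            smul_eq_mul, mul_comm]
      _ ≤ _ := Nat.mul_le_mul_right _ (Nat.le_add_left _ _)
  · obtain ⟨Sm, hSm⟩ : ∃ Sm : List (Bool × Bool) → Finset (Perm (Fin (n + 1)) × Fin (n + 1)),
      ∀ m, Sm m = Finset.univ.filter (fun z =>
        Simple (z.1 * finRotate (n + 1) * z.1⁻¹) (finRotate (n + 1)) m z.2) := ⟨_, fun _ => rfl⟩
    let I := (LL r) ×ˢ ((LL r).filter fun m => m.length ≤ r ∧ (∃ g ∈ m, g.1 = true) ∧
      ∃ g ∈ m, g.1 = false)
    have h1 : ∑ π : Perm (Fin (n + 1)), nBad (π * finRotate (n + 1) * π⁻¹) (finRotate (n + 1)) r =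
        ((Finset.univ : Finset (Perm (Fin (n + 1)) × Fin (n + 1))).filter fun z =>
          Bad (z.1 * finRotate (n + 1) * z.1⁻¹) (finRotate (n + 1)) r z.2).card := by
      rw [Finset.card_filter, ← Finset.univ_product_univ, Finset.sum_product]
      refine Finset.sum_congr rfl fun π _ => ?_
      unfold nBad
      rw [Finset.card_filter]
    have h2 : ((Finset.univ : Finset (Perm (Fin (n + 1)) × Fin (n + 1))).filter fun z =>
          Bad (z.1 * finRotate (n + 1) * z.1⁻¹) (finRotate (n + 1)) r z.2) ⊆
        I.biUnion fun pm => Finset.univ.filter fun z =>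
          (z.1, act (z.1 * finRotate (n + 1) * z.1⁻¹) (finRotate (n + 1)) pm.1 z.2) ∈ Sm pm.2 := by
      intro z hz
      rw [Finset.mem_filter] at hz
      obtain ⟨l, b1, b2, b3, b4⟩ := hz.2
      obtain ⟨p, m, a1, a2, a3, a4⟩ := exists_simple _ _ l.length l z.2 le_rfl b1 b3 b4
      rw [Finset.mem_biUnion]
      refine ⟨(p, m), ?_, ?_⟩
      · rw [Finset.mem_product, Finset.mem_filter]
        exact ⟨mem_LL (by show p.length ≤ r; omega), mem_LL (by show m.length ≤ r; omega),
          by show m.length ≤ r; omega,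
          mixed z.1 m _ a2 (by omega) a3 a4.1 true, mixed z.1 m _ a2 (by omega) a3 a4.1 false⟩
      · rw [Finset.mem_filter, hSm, Finset.mem_filter]
        exact ⟨Finset.mem_univ _, Finset.mem_univ _, a4⟩
    have h3 : ∀ pm ∈ I, (Finset.univ.filter fun z : Perm (Fin (n + 1)) × Fin (n + 1) =>
          (z.1, act (z.1 * finRotate (n + 1) * z.1⁻¹) (finRotate (n + 1)) pm.1 z.2) ∈
            Sm pm.2).card ≤ 2 ^ r * (n + 1).factorial := by
      intro pm hpm
      rw [Finset.mem_product, Finset.mem_filter] at hpm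
      have c1 : (Finset.univ.filter fun z : Perm (Fin (n + 1)) × Fin (n + 1) =>
          (z.1, act (z.1 * finRotate (n + 1) * z.1⁻¹) (finRotate (n + 1)) pm.1 z.2) ∈
            Sm pm.2).card ≤ (Sm pm.2).card := by
        refine Finset.card_le_card_of_injOn (fun z =>
          (z.1, act (z.1 * finRotate (n + 1) * z.1⁻¹) (finRotate (n + 1)) pm.1 z.2)) ?_ ?_
        · intro z hz
          rw [Finset.mem_coe, Finset.mem_filter] at hz
          exact hz.2
        · intro z _ z' _ he
          have e1 : z.1 = z'.1 := (Prod.mk.injEq _ _ _ _).mp he |>.1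
          have e2 := ((Prod.mk.injEq _ _ _ _).mp he).2
          rw [← e1] at e2
          exact Prod.ext e1 (act_inj _ _ _ e2)
      refine c1.trans ?_
      refine (card_simple pm.2 hpm.2.2.2.1 hpm.2.2.2.2 (by have := hpm.2.2.1; omega) _ ?_).trans ?_
      · intro z hz
        rw [hSm, Finset.mem_filter] at hz
        exact hz.2
      · exact Nat.mul_le_mul_right _ (Nat.pow_le_pow_right (by norm_num) hpm.2.2.1)
    rw [h1]
    calc _ ≤ _ := Finset.card_le_card h2
      _ ≤ ∑ pm ∈ I, _ := Finset.card_biUnion_le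
      _ ≤ ∑ _pm ∈ I, 2 ^ r * (n + 1).factorial := Finset.sum_le_sum h3
      _ = I.card * (2 ^ r * (n + 1).factorial) := by rw [Finset.sum_const, smul_eq_mul]
      _ ≤ ((LL r).card * (LL r).card) * (2 ^ r * (n + 1).factorial) := by
          refine Nat.mul_le_mul_right _ ?_
          rw [Finset.card_product]
          exact Nat.mul_le_mul_left _ (Finset.card_filter_le _ _)
      _ = (LL r).card * (LL r).card * 2 ^ r * (n + 1).factorial := by ring
      _ ≤ _ := Nat.mul_le_mul_right _ (Nat.le_add_right _ _)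

end Pool.Agent.Lib.MP29a61e.RP
end

section
/-!
# MP_29a61e_co, random permutations: module TRN

From the permutations with `0` fixed to all permutations, and the word of `π`.
-/
namespace Pool.Agent.Lib.MP29a61e.RP

open Pool.Agent.Lib.MP29a61e

namespace TRNM

theorem ext_zero {n : ℕ} (π : Equiv.Perm (Fin n)) : ext π 0 = 0 := by
  simp [ext]

theorem ext_succ {n : ℕ} (π : Equiv.Perm (Fin n)) (i : Fin n) : ext π i.succ = (π i).succ := by
  simp [ext]

theorem ext_injective {n : ℕ} : Function.Injective (ext : Equiv.Perm (Fin n) → _) := by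
  intro π π' h
  have := Equiv.Perm.decomposeFin.symm.injective h
  exact (Prod.mk.inj this).2

theorem rotate_pow {n : ℕ} (x j : Fin (n + 1)) :
    ((finRotate (n + 1)) ^ j.val) x = x + j := by
  induction j using Fin.induction with
  | zero => simp
  | succ i ih =>
    rw [Fin.val_succ, pow_succ', Equiv.Perm.mul_apply]
    rw [Fin.val_castSucc] at ih
    rw [ih, finRotate_apply, add_assoc, Fin.coeSucc_eq_succ]

theorem inj {n : ℕ} : Function.Injective
    (fun p : Equiv.Perm (Fin n) × Fin (n + 1) => ext p.1 * (finRotate (n + 1)) ^ p.2.val) := by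
  rintro ⟨π, j⟩ ⟨π', j'⟩ h
  simp only at h
  have h0 : ∀ x, ext π (x + j) = ext π' (x + j') := by
    intro x
    have := congrArg (fun e : Equiv.Perm (Fin (n + 1)) => e x) h
    simpa [Equiv.Perm.mul_apply, rotate_pow] using this
  have h1 := h0 (-j)
  rw [neg_add_cancel, ext_zero] at h1
  have h2 : -j + j' = 0 := by
    apply (ext π').injective
    rw [← h1, ext_zero]
  have h3 : j = j' := by
    have := eq_neg_of_add_eq_zero_left h2
    simpa using this
  subst h3
  have h4 : ext π = ext π' := mul_right_cancel h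
  rw [ext_injective h4]

theorem bij {n : ℕ} : Function.Bijective
    (fun p : Equiv.Perm (Fin n) × Fin (n + 1) => ext p.1 * (finRotate (n + 1)) ^ p.2.val) := by
  classical
  rw [Fintype.bijective_iff_injective_and_card]
  refine ⟨inj, ?_⟩
  rw [Fintype.card_prod, Fintype.card_perm, Fintype.card_perm, Fintype.card_fin, Fintype.card_fin,
    Nat.factorial_succ, mul_comm]

theorem sum_eq (n : ℕ) (F : Equiv.Perm (Fin (n + 1)) → ℕ) :
    ∑ π : Equiv.Perm (Fin (n + 1)), F (π * finRotate (n + 1) * π⁻¹) =
      (n + 1) * ∑ π : Equiv.Perm (Fin n), F (ext π * finRotate (n + 1) * (ext π)⁻¹) := by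
  classical
  rw [← Fintype.sum_bijective _ (bij (n := n))
    (fun p => F (ext p.1 * finRotate (n + 1) * (ext p.1)⁻¹)) _ ?_]
  · rw [Fintype.sum_prod_type]
    simp only [Finset.sum_const, Finset.card_univ, Fintype.card_fin, smul_eq_mul]
    rw [Finset.mul_sum]
  · rintro ⟨π, j⟩
    simp only
    congr 1
    group

theorem ofFn_ext (n : ℕ) (π : Equiv.Perm (Fin n)) :
    (0 : Fin (n + 1)) :: (List.ofFn π).map Fin.succ = List.ofFn (ext π) := by
  have h : (fun i : Fin n => ext π i.succ) = Fin.succ ∘ π := by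
    funext i
    simp [ext_succ]
  rw [List.ofFn_succ, ext_zero, List.map_ofFn, h]

theorem isWd (n : ℕ) (π : Equiv.Perm (Fin n)) : IsWd 0 (List.ofFn (ext π)) := by
  refine ⟨⟨_, (ofFn_ext n π).symm⟩, List.nodup_ofFn.2 (ext π).injective, fun x => ?_⟩
  rw [List.mem_ofFn]
  exact ⟨(ext π).symm x, by simp⟩

theorem link_ext (n : ℕ) (π : Equiv.Perm (Fin n)) (i : Fin (n + 1)) (hi : i ≠ Fin.last n) :
    Link (List.ofFn (ext π)) (ext π i) (ext π (i + 1)) := by
  have hv : i.val + 1 < n + 1 := by
    have : i.val ≠ n := fun h => hi (Fin.ext (by simpa using h))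
    omega
  rw [link_iff_getElem?]
  refine ⟨i.val, ?_, ?_⟩
  · rw [List.getElem?_ofFn, dif_pos i.isLt]
  · rw [List.getElem?_ofFn]
    have : (⟨i.val + 1, hv⟩ : Fin (n + 1)) = i + 1 := by
      apply Fin.ext
      rw [Fin.val_add_one_of_lt (Fin.lt_last_iff_ne_last.2 hi)]
    rw [dif_pos hv, this]

theorem scars_le (n : ℕ) (π : Equiv.Perm (Fin n)) :
    (scars (ext π * finRotate (n + 1) * (ext π)⁻¹) (List.ofFn (ext π))).card ≤ 1 := by
  classical
  have : scars (ext π * finRotate (n + 1) * (ext π)⁻¹) (List.ofFn (ext π)) ⊆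
      {ext π (Fin.last n)} := by
    intro x hx
    rw [scars, Finset.mem_filter] at hx
    rw [Finset.mem_singleton]
    by_contra hne
    refine hx.2 ?_
    obtain ⟨i, rfl⟩ := (ext π).surjective x
    have h1 : (ext π * finRotate (n + 1) * (ext π)⁻¹) (ext π i) = ext π (i + 1) := by
      simp [Equiv.Perm.mul_apply]
    rw [h1]
    exact link_ext n π i (fun h => hne (by rw [h]))
  exact (Finset.card_le_card this).trans (by simp)

/-! ## moves of mapped words -/

theorem move_map {α β : Type} (f : α → β) {u : List α} {w : List β} (h : Move (u.map f) w) :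
    ∃ v, w = v.map f ∧ Move u v := by
  obtain ⟨X, B, Y, U, V, hB, hu, hXY, h⟩ := h
  obtain ⟨XB, Y0, rfl, h1, rfl⟩ := List.map_eq_append_iff.1 hu
  obtain ⟨X0, B0, rfl, rfl, rfl⟩ := List.map_eq_append_iff.1 h1
  rw [← List.map_append] at hXY
  obtain ⟨U0, V0, hUV, rfl, rfl⟩ := List.map_eq_append_iff.1 hXY
  have hB0 : B0 ≠ [] := by
    rintro rfl
    exact hB rfl
  rcases h with rfl | rfl
  · exact ⟨U0 ++ B0 ++ V0, by simp, X0, B0, Y0, U0, V0, hB0, rfl, hUV, Or.inl rfl⟩
  · exact ⟨U0 ++ B0.reverse ++ V0, by simp, X0, B0, Y0, U0, V0, hB0, rfl, hUV, Or.inr rfl⟩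

theorem steps_map {α β : Type} (f : α → β) : ∀ (k : ℕ) {u : List α} {w : List β},
    Steps k (u.map f) w → ∃ v, w = v.map f ∧ Steps k u v
  | 0, u, w, h => by
    change u.map f = w at h
    exact ⟨u, h.symm, rfl⟩
  | k + 1, u, w, h => by
    obtain ⟨x, hx, h3⟩ := h
    obtain ⟨v, rfl, hv⟩ := move_map f hx
    obtain ⟨v', rfl, hv'⟩ := steps_map f k h3
    exact ⟨v', rfl, v, hv, hv'⟩

theorem reach_steps (n k : ℕ) (π : Equiv.Perm (Fin n))
    (h : Reach k (List.ofFn (ext π)) (List.finRange (n + 1))) :
    ∃ j ≤ k, Steps j (List.ofFn π) (List.finRange n) := by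
  obtain ⟨j, hj, f, u, u', h1, h2, h3⟩ := h
  rw [← ofFn_ext] at h1
  rw [List.finRange_succ] at h2
  obtain ⟨rfl, rfl⟩ := List.cons.inj h1
  obtain ⟨-, rfl⟩ := List.cons.inj h2
  obtain ⟨v, hv, h4⟩ := steps_map Fin.succ j h3
  have : List.finRange n = v := (List.map_injective_iff.2 (Fin.succ_injective n)) hv
  rw [this]
  exact ⟨j, hj, h4⟩

end TRNM

theorem TRN : SpecTRN :=
  ⟨TRNM.sum_eq, TRNM.ofFn_ext, fun n π => ⟨TRNM.isWd n π, TRNM.scars_le n π⟩, TRNM.reach_steps⟩

end Pool.Agent.Lib.MP29a61e.RP
end
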