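import Pool.Agent.Lib.MP_29a61e_co.RP.Spec2
import Pool.Agent.Lib.MP_29a61e_co.H.Lower
import Pool.Agent.Lib.MP_29a61e_co.RP.TRN
import Pool.Agent.Lib.MP_29a61e_co.N2.Local2

section
/-!
# MP_29a61e_co, random permutations: almost all permutations need `(1/2 - ε) n` moves
(module FIN2, from PRB, TRN, LOW)
-/
namespace Pool.Agent.Lib.MP29a61e.RP

open Pool.Agent.Lib.MP29a61e

/-- For every `ε > 0` there is `C` such that, for all `n ≥ 1`, at most `C (n - 1)!` of the `n!`
permutations of `n` letters can be sorted with fewer than `(1/2 - ε) n` cut-and-paste moves. -/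
theorem FIN2 (hPRB : SpecPRB) (hTRN : SpecTRN) (hLOW : SpecLOW) :
    ∀ ε : ℝ, 0 < ε → ∃ C : ℕ, ∀ n : ℕ, 1 ≤ n →
      (Finset.univ.filter (fun π : Equiv.Perm (Fin n) =>
        (sortDist π : ℝ) < (1 / 2 - ε) * n)).card ≤ C * (n - 1).factorial := by
  intro ε hε
  obtain ⟨l0, hl0⟩ := exists_nat_ge (2 / ε)
  set l := l0 + 2 with hl
  have hεl : 2 ≤ ε * l := by
    rw [div_le_iff₀ hε] at hl0
    rw [hl]
    push_cast
    nlinarith
  obtain ⟨C, hC⟩ := hPRB (2 * l)
  refine ⟨C * l, fun n hn => ?_⟩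
  set f : Equiv.Perm (Fin n) → ℕ := fun π =>
    nBad (ext π * finRotate (n + 1) * (ext π)⁻¹) (finRotate (n + 1)) (2 * l) with hf
  -- the expected number of bad letters
  have h1 : ∑ π : Equiv.Perm (Fin n), f π ≤ C * n.factorial := by
    have a := hTRN.1 n (fun β => nBad β (finRotate (n + 1)) (2 * l))
    have b := hC n
    rw [a, Nat.factorial_succ] at b
    have c : (n + 1) * ∑ π : Equiv.Perm (Fin n), f π ≤ (n + 1) * (C * n.factorial) := by
      refine b.trans (le_of_eq ?_)
      ring
    exact Nat.le_of_mul_le_mul_left c (Nat.succ_pos n)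
  -- a permutation with small distance has many bad letters
  have h2 : ∀ π ∈ Finset.univ.filter (fun π : Equiv.Perm (Fin n) =>
      (sortDist π : ℝ) < (1 / 2 - ε) * n), n ≤ l * f π := by
    intro π hπ
    rw [Finset.mem_filter] at hπ
    have a := hLOW n l (sortDist π) π (by omega)
      (Pool.Agent.Lib.MP29a61eH.steps_sortDist π)
    have a' : (l : ℝ) * (n + 1) ≤ 2 * (n + 1) + 2 * l * sortDist π + 2 * l * f π := by
      exact_mod_cast a
    have hk := hπ.2
    have hn' : (1 : ℝ) ≤ n := by exact_mod_cast hn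
    have hl' : (2 : ℝ) ≤ l := by
      rw [hl]
      push_cast
      have : (0 : ℝ) ≤ l0 := Nat.cast_nonneg _
      linarith
    have b : 2 * (l : ℝ) * sortDist π ≤ 2 * l * ((1 / 2 - ε) * n) := by
      apply mul_le_mul_of_nonneg_left hk.le
      positivity
    have c : 2 * (n : ℝ) ≤ (ε * l) * n := by
      apply mul_le_mul_of_nonneg_right hεl
      positivity
    have d : (n : ℝ) ≤ l * f π := by nlinarith
    exact_mod_cast d
  have h3 : (Finset.univ.filter (fun π : Equiv.Perm (Fin n) =>
      (sortDist π : ℝ) < (1 / 2 - ε) * n)).card * n ≤ l * (C * n.factorial) := by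
    rw [← smul_eq_mul, ← Finset.sum_const]
    calc ∑ _π ∈ Finset.univ.filter (fun π : Equiv.Perm (Fin n) =>
          (sortDist π : ℝ) < (1 / 2 - ε) * n), n ≤
        ∑ π ∈ Finset.univ.filter (fun π : Equiv.Perm (Fin n) =>
          (sortDist π : ℝ) < (1 / 2 - ε) * n), l * f π := Finset.sum_le_sum h2
      _ ≤ ∑ π : Equiv.Perm (Fin n), l * f π :=
        Finset.sum_le_sum_of_subset (Finset.filter_subset _ _)
      _ = l * ∑ π : Equiv.Perm (Fin n), f π := (Finset.mul_sum _ _ _).symm
      _ ≤ l * (C * n.factorial) := Nat.mul_le_mul_left _ h1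
  have h4 : n.factorial = n * (n - 1).factorial := (Nat.mul_factorial_pred (by omega)).symm
  rw [h4] at h3
  have h5 : (Finset.univ.filter (fun π : Equiv.Perm (Fin n) =>
      (sortDist π : ℝ) < (1 / 2 - ε) * n)).card * n ≤ (C * l * (n - 1).factorial) * n := by
    refine h3.trans (le_of_eq ?_)
    ring
  exact Nat.le_of_mul_le_mul_right h5 (by omega)

end Pool.Agent.Lib.MP29a61e.RP
end

section
set_option autoImplicit false

/-!
# MP_29a61e_co: almost all permutations need `n / 2 + o(n)` cut-and-paste moves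

`almostAll_lower` has no hypotheses; `almostAll` takes the upper bound `M n ≤ (1/2 + ε) n` for all
large `n` (`SpecMain` of N2/Local2.lean).
-/

namespace Pool.Agent.Lib.MP29a61e.RP

open Pool.Agent.Lib.MP29a61e

/-- For every `ε > 0` there is `C` such that, for all `n ≥ 1`, at most `C (n - 1)!` of the `n!`
permutations of `n` letters can be sorted with fewer than `(1/2 - ε) n` cut-and-paste moves. -/
theorem almostAll_lower : ∀ ε : ℝ, 0 < ε → ∃ C : ℕ, ∀ n : ℕ, 1 ≤ n →
      (Finset.univ.filter (fun π : Equiv.Perm (Fin n) =>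
        (sortDist π : ℝ) < (1 / 2 - ε) * n)).card ≤ C * (n - 1).factorial :=
  FIN2 specPRB TRN LOW

/-- For every `ε > 0` there is `C` such that, for all `n ≥ 1`, all but at most `C (n - 1)!` of the
`n!` permutations of `n` letters have a sorting distance between `(1/2 - ε) n` and
`(1/2 + ε) n`. -/
theorem almostAll (hM : Pool.Agent.Lib.MP29a61eN.SpecMain) :
    ∀ ε : ℝ, 0 < ε → ∃ C : ℕ, ∀ n : ℕ, 1 ≤ n →
      (Finset.univ.filter (fun π : Equiv.Perm (Fin n) =>
        ε * n < |(sortDist π : ℝ) - n / 2|)).card ≤ C * (n - 1).factorial := by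
  classical
  intro ε hε
  obtain ⟨C, hC⟩ := almostAll_lower ε hε
  obtain ⟨n0, h0⟩ := hM ε hε
  refine ⟨C + n0, fun n hn => ?_⟩
  rcases Nat.lt_or_ge n n0 with h | h
  · calc _ ≤ (Finset.univ : Finset (Equiv.Perm (Fin n))).card := Finset.card_filter_le _ _
      _ = n.factorial := by rw [Finset.card_univ, Fintype.card_perm, Fintype.card_fin]
      _ = n * (n - 1).factorial := (Nat.mul_factorial_pred (by omega)).symm
      _ ≤ (C + n0) * (n - 1).factorial := Nat.mul_le_mul_right _ (by omega)
  · refine (Finset.card_le_card ?_).trans ((hC n hn).trans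
      (Nat.mul_le_mul_right _ (Nat.le_add_right _ _)))
    intro π hπ
    rw [Finset.mem_filter] at hπ ⊢
    refine ⟨Finset.mem_univ _, ?_⟩
    obtain ⟨k, hk, hs⟩ := h0 n h π
    have h1 : sortDist π ≤ k := Nat.sInf_le hs
    have h2 : (sortDist π : ℝ) ≤ k := by exact_mod_cast h1
    rcases lt_abs.1 hπ.2 with h3 | h3
    · exfalso
      nlinarith
    · nlinarith

end Pool.Agent.Lib.MP29a61e.RP
end
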