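import Pool.Agent.Lib.MP_29a61e_co.RP.Defs

/-!
# MP_29a61e_co, random permutations: basic lemmas on `Link` and `Reach`
-/

namespace Pool.Agent.Lib.MP29a61e.RP

open Pool.Agent.Lib.MP29a61e

variable {α : Type}

/-! ## links -/

theorem link_iff {w : List α} {a b : α} : Link w a b ↔ ∃ s t, w = s ++ a :: b :: t := by
  constructor
  · rintro ⟨s, t, h⟩
    exact ⟨s, t, by rw [← h]; simp⟩
  · rintro ⟨s, t, h⟩
    exact ⟨s, t, by rw [h]; simp⟩

theorem Link.of_infix {w w' : List α} {a b : α} (h : Link w a b) (hw : w <:+: w') : Link w' a b :=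
  h.trans hw

theorem Link.append_left {w : List α} {a b : α} (h : Link w a b) (v : List α) :
    Link (v ++ w) a b := h.of_infix ⟨v, [], by simp⟩

theorem Link.append_right {w : List α} {a b : α} (h : Link w a b) (v : List α) :
    Link (w ++ v) a b := h.of_infix ⟨[], v, by simp⟩

theorem Link.cons {w : List α} {a b : α} (h : Link w a b) (c : α) : Link (c :: w) a b :=
  h.of_infix ⟨[c], [], by simp⟩

theorem Link.mem_left {w : List α} {a b : α} (h : Link w a b) : a ∈ w := by
  obtain ⟨s, t, rfl⟩ := link_iff.1 h; simp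

theorem Link.mem_right {w : List α} {a b : α} (h : Link w a b) : b ∈ w := by
  obtain ⟨s, t, rfl⟩ := link_iff.1 h; simp

/-- position form of a link. -/
theorem link_iff_getElem? {w : List α} {a b : α} :
    Link w a b ↔ ∃ i, w[i]? = some a ∧ w[i + 1]? = some b := by
  rw [link_iff]
  constructor
  · rintro ⟨s, t, rfl⟩
    refine ⟨s.length, ?_, ?_⟩ <;> simp
  · rintro ⟨i, h1, h2⟩
    obtain ⟨hi, h1'⟩ := List.getElem?_eq_some_iff.1 h1
    obtain ⟨hi', h2'⟩ := List.getElem?_eq_some_iff.1 h2
    refine ⟨w.take i, w.drop (i + 2), ?_⟩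
    have e1 : w = w.take i ++ w.drop i := (List.take_append_drop i w).symm
    have e2 : w.drop i = w[i] :: w.drop (i + 1) := List.drop_eq_getElem_cons hi
    have e3 : w.drop (i + 1) = w[i + 1] :: w.drop (i + 2) := List.drop_eq_getElem_cons hi'
    conv_lhs => rw [e1, e2, e3, h1', h2']

theorem Link.right_unique {w : List α} (hw : w.Nodup) {a b c : α} (h1 : Link w a b)
    (h2 : Link w a c) : b = c := by
  obtain ⟨i, hi, hi'⟩ := link_iff_getElem?.1 h1
  obtain ⟨j, hj, hj'⟩ := link_iff_getElem?.1 h2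
  obtain ⟨hi0, hi1⟩ := List.getElem?_eq_some_iff.1 hi
  obtain ⟨hj0, hj1⟩ := List.getElem?_eq_some_iff.1 hj
  have : i = j := (List.Nodup.getElem_inj_iff hw).1 (hi1.trans hj1.symm)
  subst this
  rw [hi'] at hj'
  exact Option.some.inj hj'

theorem Link.left_unique {w : List α} (hw : w.Nodup) {a b c : α} (h1 : Link w a c)
    (h2 : Link w b c) : a = b := by
  obtain ⟨i, hi, hi'⟩ := link_iff_getElem?.1 h1
  obtain ⟨j, hj, hj'⟩ := link_iff_getElem?.1 h2
  obtain ⟨hi0, hi1⟩ := List.getElem?_eq_some_iff.1 hi'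
  obtain ⟨hj0, hj1⟩ := List.getElem?_eq_some_iff.1 hj'
  have : i + 1 = j + 1 := (List.Nodup.getElem_inj_iff hw).1 (hi1.trans hj1.symm)
  have : i = j := by omega
  subst this
  rw [hi] at hj
  exact Option.some.inj hj

/-- a link of a concatenation. -/
theorem link_append {u v : List α} {a b : α} :
    Link (u ++ v) a b ↔ Link u a b ∨ Link v a b ∨ (u.getLast? = some a ∧ v.head? = some b) := by
  constructor
  · intro h
    obtain ⟨i, h1, h2⟩ := link_iff_getElem?.1 h
    rcases lt_trichotomy (i + 1) u.length with hlt | heq | hgt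
    · left
      refine link_iff_getElem?.2 ⟨i, ?_, ?_⟩
      · rwa [List.getElem?_append_left (by omega)] at h1
      · rwa [List.getElem?_append_left (by omega)] at h2
    · right; right
      constructor
      · rw [List.getElem?_append_left (by omega)] at h1
        rw [List.getLast?_eq_getElem?, ← h1]; congr 1; omega
      · rw [List.getElem?_append_right (by omega)] at h2
        rw [List.head?_eq_getElem?, ← h2]; congr 1; omega
    · right; left
      refine link_iff_getElem?.2 ⟨i - u.length, ?_, ?_⟩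
      · rwa [List.getElem?_append_right (by omega)] at h1
      · rw [List.getElem?_append_right (by omega)] at h2
        rw [← h2]; congr 1; omega
  · rintro (h | h | ⟨h1, h2⟩)
    · exact h.append_right v
    · exact h.append_left u
    · obtain ⟨u', rfl⟩ : ∃ u', u = u' ++ [a] := by
        rw [List.getLast?_eq_some_iff] at h1; exact h1
      obtain ⟨v', rfl⟩ : ∃ v', v = b :: v' := by
        cases v with
        | nil => simp at h2
        | cons c v' => simp at h2; exact ⟨v', by rw [h2]⟩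
      exact link_iff.2 ⟨u', v', by simp⟩

/-! ## moves -/

theorem Steps.trans' : ∀ (k : ℕ) {l : ℕ} {u v w : List α}, Steps k u v → Steps l v w →
    Steps (k + l) u w
  | 0, l, u, v, w, h1, h2 => by
    change u = v at h1
    subst h1; simpa using h2
  | k + 1, l, u, v, w, h1, h2 => by
    obtain ⟨x, hx, h3⟩ := h1
    have e : k + 1 + l = (k + l) + 1 := by omega
    rw [e]
    exact ⟨x, hx, Steps.trans' k h3 h2⟩

theorem Move.perm' {w w' : List α} (h : Move w w') : w.Perm w' := by
  obtain ⟨X, B, Y, U, V, _, rfl, hXY, h⟩ := h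
  have h1 : (X ++ B ++ Y).Perm (B ++ (X ++ Y)) := by
    rw [List.append_assoc]
    exact (List.perm_append_comm_assoc X B Y)
  have h2 : (B ++ (U ++ V)).Perm (U ++ B ++ V) := by
    rw [List.append_assoc]
    exact (List.perm_append_comm_assoc B U V)
  rcases h with h | h
  · rw [h]
    exact h1.trans (by rw [hXY]; exact h2)
  · rw [h]
    refine h1.trans ?_
    rw [hXY]
    refine h2.trans ?_
    exact ((List.Perm.append_left U (List.reverse_perm B).symm).append_right V)

theorem Steps.perm' : ∀ (k : ℕ) {u v : List α}, Steps k u v → u.Perm v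
  | 0, u, v, h => by
    change u = v at h
    rw [h]
  | k + 1, u, v, h => by
    obtain ⟨x, hx, h3⟩ := h
    exact (Move.perm' hx).trans (Steps.perm' k h3)

theorem Reach.refl (f : α) (u : List α) : Reach 0 (f :: u) (f :: u) :=
  ⟨0, le_rfl, f, u, u, rfl, rfl, rfl⟩

theorem Reach.mono {k l : ℕ} {w w' : List α} (h : Reach k w w') (hkl : k ≤ l) : Reach l w w' := by
  obtain ⟨j, hj, f, u, u', h1, h2, h3⟩ := h
  exact ⟨j, hj.trans hkl, f, u, u', h1, h2, h3⟩

theorem Reach.trans {k l : ℕ} {w w' w'' : List α} (h1 : Reach k w w') (h2 : Reach l w' w'') :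
    Reach (k + l) w w'' := by
  obtain ⟨j, hj, f, u, u', rfl, h12, h3⟩ := h1
  obtain ⟨j', hj', f', v, v', h21, rfl, h3'⟩ := h2
  rw [h12] at h21
  obtain ⟨rfl, rfl⟩ := List.cons.inj h21
  exact ⟨j + j', by omega, f, u, v', rfl, rfl, Steps.trans' j h3 h3'⟩

theorem Reach.perm {k : ℕ} {w w' : List α} (h : Reach k w w') : w.Perm w' := by
  obtain ⟨j, hj, f, u, u', rfl, rfl, h3⟩ := h
  exact (Steps.perm' j h3).cons f

theorem Reach.isWd {k : ℕ} {f : α} {w w' : List α} (h : Reach k w w') (hw : IsWd f w) :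
    IsWd f w' := by
  have hp := h.perm
  obtain ⟨j, hj, g, u, u', rfl, rfl, h3⟩ := h
  obtain ⟨⟨u0, h0⟩, h1, h2⟩ := hw
  obtain ⟨rfl, rfl⟩ := List.cons.inj h0
  exact ⟨⟨u', rfl⟩, hp.nodup_iff.1 h1, fun x => hp.mem_iff.1 (h2 x)⟩

/-- exchange of two adjacent blocks. -/
theorem reach_swap (f : α) (A B C D : List α) :
    Reach 1 (f :: (A ++ B ++ C ++ D)) (f :: (A ++ C ++ B ++ D)) := by
  by_cases hB : B = []
  · subst hB
    simpa using (Reach.refl f (A ++ C ++ D)).mono (by omega)
  · exact ⟨1, le_rfl, f, _, _, rfl, rfl, _, ⟨A, B, C ++ D, A ++ C, D, hB, by simp, by simp,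
      Or.inl rfl⟩, rfl⟩

/-- reversal of a block. -/
theorem reach_rev (f : α) (A B C : List α) :
    Reach 1 (f :: (A ++ B ++ C)) (f :: (A ++ B.reverse ++ C)) := by
  by_cases hB : B = []
  · subst hB
    simpa using (Reach.refl f (A ++ C)).mono (by omega)
  · exact ⟨1, le_rfl, f, _, _, rfl, rfl, _, ⟨A, B, C, A, C, hB, by simp, by simp,
      Or.inr rfl⟩, rfl⟩

end Pool.Agent.Lib.MP29a61e.RP
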