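import Pool.Agent.Lib.MP_29a61e_co.Defs

/-!
# MP_29a61e_co, random permutations: common definitions

`α` is the finite set of letters (with the frame letter `f`), `β` the permutation `next letter of
the word` (cyclically, through the frame), `γ` the permutation `next value` (cyclically).
-/

namespace Pool.Agent.Lib.MP29a61e.RP

open Pool.Agent.Lib.MP29a61e

/-- `a` is immediately followed by `b` in the word `w`. -/
def Link {α : Type} (w : List α) (a b : α) : Prop := [a, b] <:+: w

/-- `w` is a word with the frame letter `f` in front and every letter exactly once. -/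
def IsWd {α : Type} (f : α) (w : List α) : Prop :=
  (∃ u, w = f :: u) ∧ w.Nodup ∧ ∀ x, x ∈ w

/-- `w'` is reached from `w` by at most `k` cut-and-paste moves of the part after the frame
letter. -/
def Reach {α : Type} (k : ℕ) (w w' : List α) : Prop :=
  ∃ j, j ≤ k ∧ ∃ f u u', w = f :: u ∧ w' = f :: u' ∧ Steps j u u'

open scoped Classical in
/-- the letters which are not followed by their partner `T x`. -/
noncomputable def scars {α : Type} [Fintype α] (T : α → α) (w : List α) : Finset α :=
  Finset.univ.filter (fun x => ¬ Link w x (T x))

/-- generators: first component `true` for `γ`, `false` for `β`; second component `true` for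
forward. -/
def gen {α : Type} (β γ : Equiv.Perm α) (g : Bool × Bool) : Equiv.Perm α :=
  match g with
  | (true, true) => γ
  | (true, false) => γ⁻¹
  | (false, true) => β
  | (false, false) => β⁻¹

/-- the letter reached from `x` by a walk (first step = head of the list). -/
def act {α : Type} (β γ : Equiv.Perm α) : List (Bool × Bool) → α → α
  | [], x => x
  | g :: l, x => act β γ l (gen β γ g x)

/-- reduced walks: no step is followed by its inverse. -/
def Red (l : List (Bool × Bool)) : Prop :=
  l.IsChain (fun a b => ¬ (a.1 = b.1 ∧ a.2 ≠ b.2))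

/-- `x` is on a closed nonempty reduced walk of length at most `r` (starting at `x`). -/
def Bad {α : Type} (β γ : Equiv.Perm α) (r : ℕ) (x : α) : Prop :=
  ∃ l, l ≠ [] ∧ l.length ≤ r ∧ Red l ∧ act β γ l x = x

open scoped Classical in
/-- number of bad letters. -/
noncomputable def nBad {α : Type} [Fintype α] (β γ : Equiv.Perm α) (r : ℕ) : ℕ :=
  (Finset.univ.filter (fun x => Bad β γ r x)).card

/-- a system of disjoint strands `o s 0, o s 1, .., o s (len s - 1)` of trails. -/
structure IsStr {α : Type} (β γ : Equiv.Perm α) {S : Type} (o : S → ℕ → α) (len : S → ℕ) :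
    Prop where
  pos : ∀ s, 0 < len s
  step : ∀ s i, i + 1 < len s → β (o s (i + 1)) = γ (o s i)
  inj : ∀ s i s' i', i < len s → i' < len s' → o s i = o s' i' → s = s' ∧ i = i'

/-- `T` is the link function when the first `2 * h s + 1` junctions of every strand `s` have been
closed into one run. -/
structure IsLF {α : Type} (β γ : Equiv.Perm α) {S : Type} (o : S → ℕ → α) (h : S → ℕ)
    (T : α → α) : Prop where
  run : ∀ s i, i < 2 * h s → T (o s i) = γ (o s i)
  back : ∀ s, T (o s (2 * h s)) = β (o s 0)
  rest : ∀ x, (∀ s i, i ≤ 2 * h s → x ≠ o s i) → T x = β x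

/-- left letter of the junction `c = 0, 1, 2` of the next slide of the strand `s`. -/
def jo {α S : Type} (o : S → ℕ → α) (h : S → ℕ) (s : S) (c : ℕ) : α := o s (2 * h s + c)

/-- right letter of the junction `c = 0, 1, 2` of the next slide of the strand `s`. -/
def jq {α S : Type} (β : Equiv.Perm α) (o : S → ℕ → α) (h : S → ℕ) (s : S) (c : ℕ) : α :=
  β (o s (if c = 0 then 0 else 2 * h s + c))

end Pool.Agent.Lib.MP29a61e.RP
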