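import Pool.Agent.Lib.MP_29a61e_co.RP.Basic

/-!
# MP_29a61e_co, random permutations: statements of the modules

TARGET: for every `ε > 0` and all large `n`, all but `ε n!` of the permutations `π` of `n` letters
satisfy `|sortDist π - n / 2| ≤ ε n`.

Module XXX = file `Pool/Agent/Lib/MP_29a61e_co/RP/XXX.lean`, `import ...RP.Spec`,
`namespace Pool.Agent.Lib.MP29a61e.RP`, own lemmas in the namespace `XXXM`, main theorem
`theorem XXX (h1 : SpecA) .. : SpecXXX` (hypotheses: only those named in the docstring).
Conventions: `w = f :: u` is the word with the frame letter `f` (never moved) in front;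
`Reach k w w'`: at most `k` cut-and-paste moves on the part behind the frame (see Basic:
`reach_swap`, `reach_rev`, `Reach.trans`, `Reach.mono`, `Reach.isWd`, `link_append`,
`link_iff_getElem?`, `Link.right_unique` ..).
-/

namespace Pool.Agent.Lib.MP29a61e.RP

open Pool.Agent.Lib.MP29a61e

/-! ## MIX -/

/-- interleaving of three lists of blocks. -/
def inter {α : Type} : List (List α) → List (List α) → List (List α) → List α
  | y :: ys, z :: zs, x :: xs => y ++ z ++ x ++ inter ys zs xs
  | _, _, _ => []

/-- MIX (60 lines, no hypotheses). Proof: the case `K = 0` is `Reach.refl`. For `K ≥ 1`: one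
`reach_swap` exchanges the blocks `xs.flatten ++ Y0` and `ys.flatten ++ zs.reverse.flatten`; the
word is then `X0 ++ ys.flatten ++ zs.reverse.flatten ++ xs.flatten ++ Y0 ++ Z0`. LEMMA (induction
on `K`): `Reach K` from `f :: (A ++ ys.flatten ++ zs.reverse.flatten ++ xs.flatten ++ R)` to
`f :: (A ++ inter ys zs xs ++ R)`, and even `Reach (K - 1)`: with `ys = y :: ys'` etc. the word is
`A ++ y ++ (ys'.flatten ++ zs'.reverse.flatten) ++ (z ++ x) ++ xs'.flatten ++ R`; exchange the two
bracketed blocks (`reach_swap`, for `K = 1` the first of them is empty, no move is needed), and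
use induction with `A ++ y ++ z ++ x` in place of `A`. Total `1 + (K - 1) = K` moves. -/
def SpecMIX : Prop :=
  ∀ (α : Type) (f : α) (A X0 Y0 Z0 E : List α) (K : ℕ) (xs ys zs : List (List α)),
    xs.length = K → ys.length = K → zs.length = K →
    Reach K
      (f :: (A ++ ((X0 ++ xs.flatten) ++ (Y0 ++ ys.flatten) ++ (zs.reverse.flatten ++ Z0)) ++ E))
      (f :: (A ++ (X0 ++ inter ys zs xs ++ Y0 ++ Z0) ++ E))

/-! ## SAM -/

/-- concatenation of the blocks `X k 0, .., X k J`. -/
def lane {α : Type} (X : ℕ → ℕ → List α) (k J : ℕ) : List α :=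
  (List.range (J + 1)).flatMap (fun i => X (k % 3) i)

/-- concatenation of the blocks `X k 0, X (k+1) 1, .., X (k+J) J` (first index modulo 3). -/
def diag {α : Type} (X : ℕ → ℕ → List α) (k J : ℕ) : List α :=
  (List.range (J + 1)).flatMap (fun i => X ((k + i) % 3) i)

/-- SAM (120 lines, no hypotheses). Proof. (1) Three `reach_rev`: the three blocks `lane U k J`
(`k = 0, 1, 2`) are reversed.
(2) For `i ≤ J` let `T m i` be `X m (i+1) ++ .. ++ X m J ++ reverse (U m (i+1) ++ .. ++ U m J)`
(`m` modulo 3), `D k i = diag X k i`, `E k i = (diag U k i).reverse`. The word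
`W i := A ++ D 0 i ++ T i i ++ E 0 i ++ D 1 i ++ T (i+1) i ++ E 1 i ++ D 2 i ++ T (i+2) i ++ E 2 i ++ E`
for `i = 0` is the word after (1). Two `reach_swap` give `W i → W (i+1)`:
`D0 ++ T0 ++ E0 ++ D1 ++ T1 ++ E1 ++ D2 ++ T2 ++ E2`
→ (exchange `T0 ++ E0 ++ D1` and `T1 ++ E1 ++ D2`)
`D0 ++ T1 ++ E1 ++ D2 ++ T0 ++ E0 ++ D1 ++ T2 ++ E2`
→ (exchange `E1 ++ D2 ++ T0` and `E0 ++ D1 ++ T2`)
`D0 ++ T1 ++ E0 ++ D1 ++ T2 ++ E1 ++ D2 ++ T0 ++ E2`, and
`T m i = X m (i+1) ++ T m (i+1) ++ (U m (i+1)).reverse`, `D k (i+1) = D k i ++ X (k+i+1) (i+1)`,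
`E k (i+1) = (U (k+i+1) (i+1)).reverse ++ E k i`.
(3) `T m J = []`; three `reach_rev` turn the blocks `E k J` into `diag U k J`. -/
def SpecSAM : Prop :=
  ∀ (α : Type) (f : α) (A E : List α) (J : ℕ) (X U : ℕ → ℕ → List α),
    Reach (2 * J + 6)
      (f :: (A ++ (lane X 0 J ++ lane U 0 J) ++ (lane X 1 J ++ lane U 1 J) ++
        (lane X 2 J ++ lane U 2 J) ++ E))
      (f :: (A ++ (diag X 0 J ++ diag U 0 J) ++ (diag X 1 J ++ diag U 1 J) ++
        (diag X 2 J ++ diag U 2 J) ++ E))

/-! ## ARR -/

/-- ARR (60 lines, no hypotheses): three blocks `M 0, M 1, M 2` at three places of the word can be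
brought together, in any order `ρ`, with 3 moves. Proof: `fin_cases`/`decide` over the 6
permutations, or: move the block which has to be last directly behind `A`, then the middle one,
then the first one, each time one `reach_swap` (exchange of the block with everything between `A`
and it). -/
def SpecARR : Prop :=
  ∀ (α : Type) (f : α) (A B C E : List α) (M : Fin 3 → List α) (ρ : Equiv.Perm (Fin 3)),
    Reach 3 (f :: (A ++ M 0 ++ B ++ M 1 ++ C ++ M 2 ++ E))
      (f :: (A ++ (M (ρ 0) ++ M (ρ 1) ++ M (ρ 2)) ++ (B ++ C ++ E)))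

/-! ## SLC -/

/-- SLC (180 lines, no hypotheses): cutting a word at the positions of `3 m + 3` junctions.
`p k c` is the position of the left letter `a k c` of the junction, `b k c` the letter behind it.
`L c` is the part of `w` between the first and the last junction of the lane `c`; it is the
concatenation of `m` nonempty blocks `S c 0, .., S c (m - 1)` (in this order if the lane is
increasing, `d c = true`, in the opposite order if it is decreasing), block `S c k` lies between the
junctions `k` and `k + 1` of the lane. Proof: with `slice x y := (w.drop x).take (y - x)` one has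
`slice x y ++ slice y z = slice x z` for `x ≤ y ≤ z`, take
`S c k := slice (p k c + 1) (p (k+1) c + 1)` (increasing) or `slice (p (k+1) c + 1) (p k c + 1)`
(decreasing). -/
def SpecSLC : Prop :=
  ∀ (α : Type) (m : ℕ) (f : α) (w : List α), IsWd f w →
  ∀ (a b : Fin (m + 1) → Fin 3 → α) (p : Fin (m + 1) → Fin 3 → ℕ),
    (∀ k c, w[p k c]? = some (a k c) ∧ w[p k c + 1]? = some (b k c)) →
  ∀ τ : Equiv.Perm (Fin 3),
    (∀ k l, p k (τ 0) < p l (τ 1) ∧ p k (τ 1) < p l (τ 2)) →
  ∀ d : Fin 3 → Bool,
    (∀ c, if d c then StrictMono (fun k => p k c) else StrictAnti (fun k => p k c)) →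
  ∃ (A B C E : List α) (L : Fin 3 → List α) (S : Fin 3 → ℕ → List α),
    w = f :: (A ++ L (τ 0) ++ B ++ L (τ 1) ++ C ++ L (τ 2) ++ E) ∧
    (∀ c, L c = if d c then (List.range m).flatMap (S c) else
      ((List.range m).reverse).flatMap (S c)) ∧
    (∀ c (k : ℕ) (hk : k < m), (S c k).head? = some (if d c then b ⟨k, by omega⟩ c else
        b ⟨k + 1, by omega⟩ c) ∧
      (S c k).getLast? = some (if d c then a ⟨k + 1, by omega⟩ c else a ⟨k, by omega⟩ c)) ∧
    (∀ x y, Link w x y → (∀ k c, x ≠ a k c) →
      Link (f :: A) x y ∨ Link B x y ∨ Link C x y ∨ Link E x y ∨ ∃ c k, k < m ∧ Link (S c k) x y)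

/-! ## BAT -/

/-- BAT (250 lines, from MIX, SAM, ARR, SLC): `2 J` slides in monotone separated lanes cost
`2 J + 9` moves. The three lanes have `2 J + 3` junctions each (columns); the first, the middle and
the last column are sacrificed, in every other column `k` the three junctions
`(a k c | b k c)`, `c = 0, 1, 2`, are replaced by the links `a k c - b k (c + 1)` (`c + 1` modulo
3), all other links of the word survive.
Proof. Let `d c` be the direction of the lane `c`; SLC with `m = 2 J + 2`.
CASE 1: all three lanes have the same direction. If they are decreasing, reverse the order of the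
columns (`k ↦ 2 J + 2 - k`; the claim is invariant), so all are increasing. ARR brings the word to
`f :: (A ++ (L 0 ++ L 1 ++ L 2) ++ ..)` (3 moves). SAM with `X c i := S c i`,
`U c i := S c (J + 1 + i)`, `i ≤ J`. In the new word `X c i` is followed by `X (c+1) (i+1)` for
`i < J`, i.e. the letter `a (i+1) c` (last of `S c i`) by `b (i+1) (c+1)` (head of
`S (c+1) (i+1)`): columns `1 .. J`; similarly the columns `J + 2 .. 2 J + 1` from `U`.
CASE 2: one lane `r` has the direction opposite to the two others. Reversing the order of the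
columns, `r` is decreasing and `r + 1`, `r + 2` are increasing. ARR brings the word to
`f :: (A ++ (L (r+1) ++ L (r+2) ++ L r) ++ ..)`. MIX with `K = 2 J + 1`,
`X0 = S (r+1) 0`, `xs = [S (r+1) 1, .., S (r+1) (2J+1)]`, `Y0 = S (r+2) 0`, `ys` similarly,
`Z0 = S r 0`, `zs = [S r 1, .., S r (2J+1)]`. New word: `X (i-1)` is followed by `Y i`, `Y (i-1)`
by `Z (i-1)` (head `b i r`, as the lane `r` is decreasing), `Z i` (last letter `a i r`) by `X i`:
these are the links of the column `i = 1 .. 2 J + 1`.
All other links: last clause of SLC; every block `f :: A, B, C, E, S c k` is an infix of the new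
word. Cost `3 + (2 J + 6)` resp. `3 + (2 J + 1)`. -/
def SpecBAT : Prop :=
  ∀ (α : Type) (J : ℕ) (f : α) (w : List α), IsWd f w →
  ∀ (a b : Fin (2 * J + 3) → Fin 3 → α) (p : Fin (2 * J + 3) → Fin 3 → ℕ),
    (∀ k c, w[p k c]? = some (a k c) ∧ w[p k c + 1]? = some (b k c)) →
  ∀ τ : Equiv.Perm (Fin 3),
    (∀ k l, p k (τ 0) < p l (τ 1) ∧ p k (τ 1) < p l (τ 2)) →
    (∀ c, StrictMono (fun k => p k c) ∨ StrictAnti (fun k => p k c)) →
  ∃ w' : List α, Reach (2 * J + 9) w w' ∧
    (∀ x y, Link w x y → (∀ k c, x ≠ a k c) → Link w' x y) ∧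
    (∀ k : Fin (2 * J + 3), k.val ≠ 0 → k.val ≠ J + 1 → k.val ≠ 2 * J + 2 →
      ∀ c : Fin 3, Link w' (a k c) (b k (c + 1)))

/-! ## EXT -/

/-- EXT (250 lines, no hypotheses): many far triples of positions contain `K` triples in separated
monotone lanes. Proof. (1) `W := n / D`; the window of a position `x` is `x / D ≤ W`; positions at
distance `≥ D` have different windows. For a triple let `τ` be the order of its three positions
(one of 6; the windows are strictly increasing in this order: `α1 < α2 < α3`).
(2) For two different numbers `u < v` let `j(u,v)` be the least `j` with `u / 2^j = v / 2^j`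
(`j ≥ 1`); then `u / 2^(j-1) + 1 = v / 2^(j-1)` and `u / 2^(j-1)` is even. For
`j1 = j(α1,α2)`, `j2 = j(α2,α3)` one has `j1 ≠ j2` (else three different numbers
`α1 / 2^(j-1) < α2 / 2^(j-1) < α3 / 2^(j-1)` would have the same half).
If `j1 < j2` the code of the triple is `(τ, false, j1, α2 / 2^(j1-1))`, if `j2 < j1` it is
`(τ, true, j2, α3 / 2^(j2-1))`. With `2^m ≤ 2 W + 1 < 2^(m+1)`.. there are at most
`6 * 2 * 4 * (W + 1)` codes (for each `j ≥ 1` the last entry is odd and at most `W / 2^(j-1)`, sum
the geometric series; or: the pair `(j, c)` is determined by the number `c * 2^(j-1) ≤ W`, `c`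
odd, so there are at most `W` of them).
(3) Pigeonhole: more than `K^4` (at least `K^4 + 1`) triples have the same code. Two triples
`i`, `i'` with the same code with `j1 < j2` have `α1 / 2^(j1-1) < α2' / 2^(j1-1)` (equal codes: the
left half and the right half of one dyadic interval) so `α1(i) < α2(i')`, and
`α2(i) / 2^j1 < α3(i') / 2^j1`, as `α2(i) / 2^j1 = α2(i') / 2^j1 ≠ α3(i') / 2^j1`. So the lanes are
separated; similarly in the other case.
(4) Erdoes-Szekeres twice: order these triples by the position of the lane `τ 0` (positions of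
different triples are different), take a subfamily of more than `K^2` members with monotone
position in the lane `τ 1`, then a subfamily of `K` members with monotone position in the lane
`τ 2`. -/
def SpecEXT : Prop :=
  ∀ (K D n : ℕ), 0 < D → ∀ (ι : Type) (F : Finset ι) (p : ι → Fin 3 → ℕ),
    (∀ i ∈ F, ∀ c, p i c < n) →
    (∀ i ∈ F, ∀ j ∈ F, ∀ c c', p i c = p j c' → i = j) →
    (∀ i ∈ F, ∀ c c', c ≠ c' → p i c + D ≤ p i c' ∨ p i c' + D ≤ p i c) →
    48 * (K ^ 4 + 1) * (n / D + 1) < F.card →
    ∃ (τ : Equiv.Perm (Fin 3)) (e : Fin K → ι), (∀ k, e k ∈ F) ∧ Function.Injective e ∧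
      (∀ k l, p (e k) (τ 0) < p (e l) (τ 1) ∧ p (e k) (τ 1) < p (e l) (τ 2)) ∧
      (∀ c, StrictMono (fun k => p (e k) c) ∨ StrictAnti (fun k => p (e k) c))

/-! ## STP -/

/-- STP (200 lines, no hypotheses): as long as two different scars lie on one cycle of `T`, one
move lowers the number of scars. Proof. Strong induction on the number of scars. A strip is a
maximal block `x, T x, T^2 x, ..` of `w`; its last letter is a scar, and every scar is the last
letter of exactly one strip. If `x ≠ y` are scars on one cycle of `T`, then there is a scar `z` in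
the strip of which `T z` is NOT the first letter of the strip of `z` (otherwise every strip is a
whole cycle of `T`), and `T z ≠ f` can be achieved: if `T z = f` for the only such `z`, let `y` be
the last letter of the first strip (the one of `f`): `T y ≠ f` and `T y` is not in the first strip
(it is the first letter of its strip, as `T` is injective), so take `y`. Now `T z` is the first
letter of a strip `B` that does not contain `z`, not the first strip. Move the block `B` directly
behind `z`: the link `z - T z` is new, and no link `x - T x` is lost (the places that are cut are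
behind `z`, before `B` and behind `B`: at the last letters of strips). In terms of lists:
`w = P ++ z :: Q ++ B ++ R` or `w = P ++ B ++ Q ++ z :: R`, `P` resp. `P ++ B ++ ..` starting with
`f`. -/
def SpecSTP : Prop :=
  ∀ (α : Type) [Fintype α] (f : α) (T : α → α) (w : List α), Function.Bijective T → IsWd f w →
    ∃ (w' : List α) (k : ℕ), Reach k w w' ∧ k + (scars T w').card ≤ (scars T w).card ∧
      ∀ x y, x ∈ scars T w' → y ∈ scars T w' → (∃ i, T^[i] x = y) → x = y

/-! ## CYC, NEA, PHI : walks of the link function are reduced -/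

/-- CYC (100 lines, no hypotheses; share the lemmas with NEA). Every step `x ↦ T x` is a reduced
walk of length at most `4 H + 1` whose first and last steps are forward steps `(_, true)`:
`γ` (if `x = o s i`, `i < 2 h s`), `β γ⁻¹ β γ⁻¹ .. β` (`2 (2 h s) + 1` steps, if
`x = o s (2 h s)`: `β` leads from `o s i` to `β (o s i)`, `γ⁻¹` from there to `o s (i-1)`, at the
end `β (o s 0)`), or `β`. In a concatenation of such walks a last step `(_, true)` is followed by a
first step `(_, true)`, so it is reduced. -/
def SpecCYC : Prop :=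
  ∀ (α S : Type) (β γ : Equiv.Perm α) (o : S → ℕ → α) (len : S → ℕ) (h : S → ℕ) (T : α → α)
    (H : ℕ), IsStr β γ o len → (∀ s, 2 * h s < len s) → (∀ s, h s ≤ H) → IsLF β γ o h T →
    ∀ (k l : ℕ) (x : α), 1 ≤ k → k ≤ l → T^[k] x = x → Bad β γ (l * (4 * H + 1)) x

/-- NEA (80 lines, no hypotheses; same lemmas as CYC). The walk from `jq a` to `jo b` of CYC is
closed up by the walk along the strand: from `jo b = o s j` to `jq a = β (o s i)`, where
`i, j ≤ 2 h s + 2`. If `i ≤ j`: `β γ⁻¹ β .. β` (`2 (j - i) + 1` steps); if `i > j`: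
`γ β⁻¹ γ β⁻¹ .. γ` (`2 (i - j) - 1` steps: `o s j → γ (o s j) = β (o s (j+1)) → o s (j+1) ..`).
Both start and end with a forward step. -/
def SpecNEA : Prop :=
  ∀ (α S : Type) (β γ : Equiv.Perm α) (o : S → ℕ → α) (len : S → ℕ) (h : S → ℕ) (T : α → α)
    (H : ℕ), IsStr β γ o len → (∀ s, 2 * h s < len s) → (∀ s, h s ≤ H) → IsLF β γ o h T →
    ∀ (s : S) (a b : ℕ), a ≤ 2 → b ≤ 2 → 2 * h s + 2 < len s →
    ∀ (k D : ℕ), k ≤ D → T^[k] (jq β o h s a) = jo o h s b →
      Bad β γ (D * (4 * H + 1) + 4 * H + 5) (jq β o h s a)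

/-- STD (200 lines, no hypotheses). Let `φ := β⁻¹ * γ` (as permutations, `φ x = β⁻¹ (γ x)`). Cut
every cycle of `φ` of length `c ≥ L` into `c / L` pieces, `c / L - 1` of them of length `L` and one
of length between `L` and `2 L - 1`; a cycle of length `c < L` is one strand. The number of cycles
shorter than `L` is at most the number of letters `x` with `φ^k x = x`, `1 ≤ k < L`, and these are
bad: the walk `γ β⁻¹ γ β⁻¹ ..` of length `2 k` is reduced. So
`L * #S ≤ N + L * #(short cycles)`. -/
def SpecSTD : Prop :=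
  ∀ (α : Type) [Fintype α] (β γ : Equiv.Perm α) (L : ℕ), 0 < L →
    ∃ (S : Type) (_ : Fintype S) (o : S → ℕ → α) (len : S → ℕ), IsStr β γ o len ∧
      (∀ x, ∃ s i, i < len s ∧ o s i = x) ∧ (∀ s, len s < 2 * L) ∧
      L * Fintype.card S ≤ Fintype.card α + L * nBad β γ (2 * L)

/-- TLF (120 lines, no hypotheses): existence of the link function, and its update when the
strands of a set `P` make one slide. Proof: `T x := γ x` if `x = o s i`, `i < 2 h s`;
`T (o s (2 h s)) := β (o s 0)`; `T x := β x` otherwise (well defined by `IsStr.inj`). `T = β ∘ ρ`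
with `ρ (o s i) = o s (i+1)` (`i < 2 h s`; `β (o s (i+1)) = γ (o s i)`), `ρ (o s (2 h s)) = o s 0`,
`ρ x = x` otherwise; `ρ` is injective. -/
def SpecTLF : Prop :=
  ∀ (α S : Type) [Fintype α] (β γ : Equiv.Perm α) (o : S → ℕ → α) (len : S → ℕ),
    IsStr β γ o len →
    (∀ h : S → ℕ, (∀ s, 2 * h s < len s) → ∃ T : α → α, IsLF β γ o h T ∧ Function.Bijective T) ∧
    (∀ (h h' : S → ℕ) (P : Set S) (T T' : α → α), (∀ s, 2 * h s < len s) →
      (∀ s ∈ P, 2 * h s + 2 < len s ∧ h' s = h s + 1) → (∀ s ∉ P, h' s = h s) →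
      IsLF β γ o h T → IsLF β γ o h' T' →
      (∀ s ∈ P, T' (jo o h s 0) = jq β o h s 1 ∧ T' (jo o h s 1) = jq β o h s 2 ∧
        T' (jo o h s 2) = jq β o h s 0) ∧
      (∀ x, (∀ s ∈ P, ∀ c ≤ 2, x ≠ jo o h s c) → T' x = T x)) ∧
    (∀ (h : S → ℕ) (T : α → α), (∀ s, 2 * h s < len s) → IsLF β γ o h T →
      ∀ s, 2 * h s + 2 < len s → ∀ c ≤ 2, T (jo o h s c) = jq β o h s c)

end Pool.Agent.Lib.MP29a61e.RP
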